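import Mathlib
import Pool.Agent.Work.MP_8efaaa_nt.W5.Defs
import Pool.Agent.Work.MP_8efaaa_nt.K5.RDt

/-!
# Definitions of the block X5 (fixed file)

`a = r1 r2 q`, `r1 = r2 = 3 (mod 8)`, `q = 5 (mod 8)`.
-/

set_option autoImplicit false

namespace Pool.Agent.Work.MP_8efaaa_nt.X5

open NumberField Pool.Agent.Work.MP_8efaaa_nt.R Pool.Agent.Work.MP_8efaaa_nt.N5
  Pool.Agent.Work.MP_8efaaa_nt.W5

/-- The Galois data with the square roots `w` of `r1` and `w2` of `r2`. -/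
structure TDat (K F : Type*) [Field K] [NumberField K] [Field F] [NumberField F] [Algebra K F]
    (a r1 r2 : ℕ) (s : K) (S : 𝓞 K) (τ : 𝓞 K ≃+* 𝓞 K) (ζ w w2 : F) (X Y V U : Ideal (𝓞 K) → F)
    (κ : F ≃ₐ[ℚ] F) : Prop where
  rd : K5.RDat K F a r1 s S τ ζ w X Y V U κ
  sq2 : w2 ^ 2 = (r2 : F)
  cw2 : κ w2 = w2
  act5 : ∀ σ : F ≃ₐ[K] F, ∃ b : Ideal (𝓞 K), OddI b ∧ Nat.Coprime (Ideal.absNorm b) a ∧
    σ ζ = ζ ^ Ideal.absNorm b ∧ σ w = (jacobiSym r1 (Ideal.absNorm b) : ℤ) * w ∧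
    σ w2 = (jacobiSym r2 (Ideal.absNorm b) : ℤ) * w2 ∧ ActsBy X Y σ b

end Pool.Agent.Work.MP_8efaaa_nt.X5
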