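import Mathlib
import Pool.Agent.Work.MP_8efaaa_nt.W5.FDat
import Pool.Agent.Work.MP_8efaaa_nt.W5.FInd
import Pool.Agent.Work.MP_8efaaa_nt.N5.CFrb
import Pool.Agent.Work.MP_8efaaa_nt.K5.RCtx
import Pool.Agent.Work.MP_8efaaa_nt.X5.Defs

/-!
# X5/Dat (M): existence of the data with two square roots

PROOF. As `exists_qdat` (W5/FDat.lean). `E := ((Real.sqrt r2 : ℝ) : ℂ)` is algebraic over `K` (`E^2 = r2`). `K5.exists_ictx' hb r1 {E}` gives `F`, `h0 : ICtx K F s r1 ζ0 w z k v vm` and `w2 : F` with `algebraMap F ℂ w2 = E`. `K5.rdat_of' hb hS hτ h1 h0` gives `ζ`, `κ`, `h : ICtx K F s r1 ζ w z k v vm`, the `RDat`,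
`κ` = complex conjugation. `sq2` and `cw2` hold after the injective `algebraMap F ℂ`. Also `h' : ICtx K F s r2 ζ w2 z k v vm := ⟨h.dc, h.hvm, sq2, _⟩` (`Complex.conj_ofReal`). `act5`: `frob_mact` (N5/CFrb) for `h` and for `h'` gives `N1`, `N2`; `frob_ind` (W5/FInd) with `N0 = N1 * N2` and
`P σ n := ∃ b : Ideal (𝓞 K), Ideal.absNorm b = n ∧ OddI b ∧ n.Coprime a ∧ MAct r1 ζ w z k v vm σ b ∧ MAct r2 ζ w2 z k v vm σ b`. `P 1 1`: `b = 1`; step: the ideal `(Q.comap _) * b`, as in the proof of `act_prim` (W5/FAct.lean; `fa_mul` is private there: copy it). At the end `M = a`; `X`, `Y` are expressed by `z, k, v` as in `qdat_of` (W5/FDat.lean).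
-/

set_option autoImplicit false

namespace Pool.Agent.Work.MP_8efaaa_nt.X5

open NumberField Pool.Agent.Work.CM Pool.Agent.Work.MP_8efaaa_nt.R
  Pool.Agent.Work.MP_8efaaa_nt.N5 Pool.Agent.Work.MP_8efaaa_nt.W5

universe u

/-- the product of two actions -/
private theorem fa_mul {K F : Type*} [Field K] [NumberField K] [Field F] [Algebra K F] {d : ℕ}
    {ζ w : F} {z k v vm : Ideal (𝓞 K) → F} {x y : F ≃ₐ[K] F} {b e : Ideal (𝓞 K)}
    (hb1 : OddI b) (he1 : OddI e) (hb3 : MAct d ζ w z k v vm x b)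
    (he3 : MAct d ζ w z k v vm y e) : MAct d ζ w z k v vm (x * y : F ≃ₐ[K] F) (b * e) := by
  have hmul : ∀ c : Ideal (𝓞 K), OddI c → OddI (e * c) := by
    intro c hc
    unfold OddI at *
    rw [map_mul]
    exact he1.mul hc
  refine ⟨?_, ?_, ?_, ?_⟩
  · intro c hc
    obtain ⟨h1, h2, h3⟩ := he3.act c hc
    obtain ⟨h4, h5, h6⟩ := hb3.act (e * c) (hmul c hc)
    refine ⟨?_, ?_, ?_⟩
    · show x (y (z c)) = _
      rw [h1, h4, mul_assoc]
    · show x (y (k c)) = _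
      rw [h2, h5, mul_assoc]
    · show x (y (v c)) = _
      rw [h3, h6, mul_assoc]
  · intro c hc
    have h1 := he3.actm c hc
    have h2 := hb3.actm (e * c) (hmul c hc)
    show x (y (vm c)) = _
    rw [h1, h2, mul_assoc]
  · have h1 := he3.z8
    have h2 := hb3.z8
    show x (y ζ) = _
    rw [h1, map_pow, h2, ← pow_mul, map_mul]
  · have h1 := he3.sq
    have h2 := hb3.sq
    have n1 : NeZero (Ideal.absNorm b) := ⟨fun h0 => by
      unfold OddI at hb1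
      rw [h0] at hb1
      exact absurd hb1 (by decide)⟩
    have n2 : NeZero (Ideal.absNorm e) := ⟨fun h0 => by
      unfold OddI at he1
      rw [h0] at he1
      exact absurd he1 (by decide)⟩
    show x (y w) = _
    rw [h1, map_mul, map_intCast, h2, map_mul, jacobiSym.mul_right, Int.cast_mul]
    ring

private theorem mact_one {K F : Type*} [Field K] [NumberField K] [Field F] [Algebra K F] {d : ℕ}
    {ζ w : F} {z k v vm : Ideal (𝓞 K) → F} :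
    MAct d ζ w z k v vm (1 : F ≃ₐ[K] F) (1 : Ideal (𝓞 K)) := by
  refine ⟨?_, ?_, ?_, ?_⟩
  · intro c _
    rw [one_mul]
    exact ⟨rfl, rfl, rfl⟩
  · intro c _
    rw [one_mul]
    rfl
  · rw [map_one, pow_one]
    rfl
  · rw [map_one, jacobiSym.one_right, Int.cast_one, one_mul]
    rfl

private theorem tdat_of {K : Type u} {F : Type} [Field K] [NumberField K] [Algebra K ℂ] [Field F]
    [NumberField F] [Algebra K F] [Algebra F ℂ] [IsScalarTower K F ℂ] [IsGalois K F]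
    [IsGalois ℚ F] {a : ℕ} {s : K} (hb : Base5 K a s)
    {S : 𝓞 K} (hS : algebraMap (𝓞 K) K S = s) {τ : 𝓞 K ≃+* 𝓞 K} (hτ : τ S = -S)
    {r1 r2 : ℕ} (h1 : r1 ≠ 0) (h2 : r2 ≠ 0) {w2 : F}
    (he : algebraMap F ℂ w2 = ((Real.sqrt (r2 : ℝ) : ℝ) : ℂ))
    {ζ0 w : F} {z k v vm : Ideal (𝓞 K) → F}
    (h0 : ICtx K F s r1 ζ0 w z k v vm) : ∃ (ζ : F)
      (X Y V U : Ideal (𝓞 K) → F) (κ : F ≃ₐ[ℚ] F),
      TDat K F a r1 r2 s S τ ζ w w2 X Y V U κ := by
  obtain ⟨ζ, κ, h, hR, hκ, -⟩ := K5.rdat_of' hb hS hτ h1 h0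
  have inj : Function.Injective (algebraMap F ℂ) := (algebraMap F ℂ).injective
  have hsq : w2 ^ 2 = (r2 : F) := by
    apply inj
    rw [map_pow, he, map_natCast, ← Complex.ofReal_pow, Real.sq_sqrt (Nat.cast_nonneg r2)]
    simp
  have hcw : κ w2 = w2 := by
    apply inj
    rw [hκ, he, Complex.conj_ofReal]
  have h' : ICtx K F s r2 ζ w2 z k v vm := ⟨h.dc, h.hvm, hsq, by rw [he, Complex.conj_ofReal]⟩
  obtain ⟨N1, hN1, h2N1, haN1, hact1⟩ := frob_mact hb h h1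
  obtain ⟨N2, hN2, -, -, hact2⟩ := frob_mact hb h' h2
  set P : (F ≃ₐ[K] F) → ℕ → Prop := fun σ n => ∃ b : Ideal (𝓞 K), Ideal.absNorm b = n ∧
    Odd n ∧ n.Coprime a ∧ MAct r1 ζ w z k v vm σ b ∧ MAct r2 ζ w2 z k v vm σ b with hP
  have hP1 : P 1 1 := ⟨1, by simp, by decide, by simp, mact_one, mact_one⟩
  have hmul : ∀ (σ : F ≃ₐ[K] F) (n : ℕ) (τ : F ≃ₐ[K] F) (l : ℕ) (Q : Ideal (𝓞 F)), n ≠ 0 →
      P σ n → l.Prime → ¬ l ∣ N1 * N2 → ¬ l ∣ n → Q.IsPrime →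
      Ideal.absNorm (Q.comap (algebraMap (𝓞 K) (𝓞 F))) = l → Frb τ Q l → P (τ * σ) (l * n) := by
    intro σ n τ l Q hn hσ hl hlN hln hQ hql hτ
    obtain ⟨b, hbn, hno, hna, hM1, hM2⟩ := hσ
    have hl1 : ¬ l ∣ N1 := fun h3 => hlN (h3.mul_right N2)
    have hl2' : ¬ l ∣ N2 := fun h3 => hlN (h3.mul_left N1)
    have hl2 : l ≠ 2 := by
      rintro rfl
      exact hl1 h2N1
    have hlo : Odd l := hl.odd_of_ne_two hl2
    have hla : ¬ l ∣ a := fun h3 => hl1 (h3.trans haN1)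
    have hlac : l.Coprime a := hl.coprime_iff_not_dvd.2 hla
    have hodr : OddI (Q.comap (algebraMap (𝓞 K) (𝓞 F))) := by
      unfold OddI
      rw [hql]
      exact hlo
    have hodb : OddI b := by
      unfold OddI
      rw [hbn]
      exact hno
    refine ⟨Q.comap (algebraMap (𝓞 K) (𝓞 F)) * b, ?_, hlo.mul hno,
      Nat.Coprime.mul_left hlac hna, fa_mul hodr hodb (hact1 l Q τ hl hl1 hQ hql hτ) hM1,
      fa_mul hodr hodb (hact2 l Q τ hl hl2' hQ hql hτ) hM2⟩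
    rw [map_mul, hql, hbn]
  have ha0 : a ≠ 0 := by
    have := hb.mod
    omega
  refine ⟨ζ, _, _, _, _, κ, ⟨hR, hsq, hcw, fun σ => ?_⟩⟩
  obtain ⟨n, -, -, b, hbn, hbo, hba, hM1, hM2⟩ :=
    frob_ind (N1 * N2) (mul_ne_zero hN1 hN2) P hP1 hmul σ a ha0
  subst hbn
  refine ⟨b, hbo, hba, hM1.z8, hM1.sq, hM2.sq, fun c hc => ?_⟩
  obtain ⟨q1, q2, q3⟩ := hM1.act c hc
  refine ⟨?_, ?_⟩
  · show σ ((1 + z c) / k c) = (1 + z (b * c)) / k (b * c)
    rw [map_div₀, map_add, map_one, q1, q2]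
  · show σ (2 * ((1 + z c) / k c) / (v c * z c)) =
      2 * ((1 + z (b * c)) / k (b * c)) / (v (b * c) * z (b * c))
    rw [map_div₀, map_mul, map_div₀, map_add, map_one, map_mul, map_ofNat, q1, q2, q3]

theorem exists_tdat {K : Type u} [Field K] [NumberField K] {a : ℕ} {s : K} (hb : Base5 K a s)
    {S : 𝓞 K} (hS : algebraMap (𝓞 K) K S = s) {τ : 𝓞 K ≃+* 𝓞 K} (hτ : τ S = -S)
    {r1 r2 : ℕ} (h1 : r1 ≠ 0) (h2 : r2 ≠ 0) :
    ∃ (F : Type) (_ : Field F) (_ : NumberField F) (_ : Algebra K F)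
      (_ : FiniteDimensional K F) (_ : IsGalois K F) (_ : IsGalois ℚ F) (ζ w w2 : F)
      (X Y V U : Ideal (𝓞 K) → F) (κ : F ≃ₐ[ℚ] F),
      TDat K F a r1 r2 s S τ ζ w w2 X Y V U κ := by
  obtain ⟨φ⟩ : Nonempty (K →+* ℂ) := inferInstance
  let _ : Algebra K ℂ := φ.toAlgebra
  have hE2 : (((Real.sqrt (r2 : ℝ) : ℝ) : ℂ)) ^ 2 = (r2 : ℂ) := by
    rw [← Complex.ofReal_pow, Real.sq_sqrt (Nat.cast_nonneg r2)]
    simp
  have hEa : IsAlgebraic K (((Real.sqrt (r2 : ℝ) : ℝ) : ℂ)) := by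
    have h3 : IsIntegral K ((((Real.sqrt (r2 : ℝ) : ℝ) : ℂ)) ^ 2) := by
      rw [hE2]
      have : (r2 : ℂ) = algebraMap K ℂ (r2 : K) := by simp
      rw [this]
      exact isIntegral_algebraMap
    exact (IsIntegral.of_pow (by norm_num) h3).isAlgebraic
  obtain ⟨F, hF1, hF2, hF3, ζ0, w, z, k, v, vm, h0, hT⟩ :=
    K5.exists_ictx' hb r1 {(((Real.sqrt (r2 : ℝ) : ℝ) : ℂ))} (by
      intro x hx
      rw [Finset.mem_singleton] at hx
      rw [hx]
      exact hEa)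
  obtain ⟨w2, hw2⟩ := hT _ (Finset.mem_singleton_self _)
  have hNF : NumberField F := NumberField.of_module_finite K F
  have hF4 : @IsGalois ℚ _ F _ DivisionRing.toRatAlgebra := by
    convert hF3
  obtain ⟨ζ, X, Y, V, U, κ, h⟩ := tdat_of hb hS hτ h1 h2 hw2 h0
  exact ⟨F, inferInstance, hNF, inferInstance, hF1, hF2, hF4, ζ, w, w2, X, Y, V, U, κ, h⟩

end Pool.Agent.Work.MP_8efaaa_nt.X5
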