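import Mathlib
import Pool.Agent.Work.MP_8efaaa_nt.W5.CTw
import Pool.Agent.Work.MP_8efaaa_nt.N5.EQt

/-!
# X5/Gen (S-M): the subgroup of index eight

PROOF of `sq_surj4`. As `sq_surj` (W5/CTw.lean): the kernel of `S0 → S2`, `x ↦ x^2`, has at most four elements, so the image has at least `card S0 / 4 = card S2` elements.
PROOF of `exists_eighth`. `exists_quarter` (N5/EQt.lean) for `r1` (witness `e1`) gives `S0`, `S`; for `r2` (witness `e2`) gives `S0'`, `S'`. `S0' = S0` (both consist of the classes `kl b`, `N b = 1 (mod 4)`). `S2 := S ⊓ S'`. `kl e1 ∈ S'` and `kl e1 ∉ S`. `card S' = 2 card S2`: the last property of `exists_quarter` for `S` with `g = kl e1`: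
for `C ∈ S'`, `C ∉ S`: `g⁻¹ * C ∈ S ⊓ S' = S2`; so `S' = S2 ∪ g S2` (disjoint), or: the index of `S2` in `S'` is `2` (`Subgroup.card`, e.g. the map `S' → S' ⧸ ..`; or count with `Finset`/`Nat.card` and the bijection `C ↦ g⁻¹ C` between `S' \ S2` and `S2`).
-/

set_option autoImplicit false

namespace Pool.Agent.Work.MP_8efaaa_nt.X5

open NumberField Pool.Agent.Work.MP_8efaaa_nt.R Pool.Agent.Work.MP_8efaaa_nt.N5
  Pool.Agent.Work.MP_8efaaa_nt.W5

theorem sq_surj4 {G : Type*} [CommGroup G] [Fintype G] (S0 S2 : Subgroup G)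
    (hcard : Nat.card S0 = 4 * Nat.card S2) (hsq : ∀ C : G, C ^ 2 ∈ S2) {g1 g2 g3 : G}
    (h2 : ∀ C ∈ S0, C ^ 2 = 1 → C = 1 ∨ C = g1 ∨ C = g2 ∨ C = g3) :
    ∀ C ∈ S2, ∃ D ∈ S0, D ^ 2 = C := by
  classical
  let φ : S0 →* S2 :=
    { toFun := fun D => ⟨(D : G) ^ 2, hsq D⟩
      map_one' := by
        apply Subtype.ext
        simp
      map_mul' := by
        intro x y
        apply Subtype.ext
        simp [mul_pow] }
  have hker : Nat.card φ.ker ≤ 4 := by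
    let T : Finset G := {1, g1, g2, g3}
    have hT : ∀ x : φ.ker, ((x : S0) : G) ∈ T := by
      intro x
      have h3 : φ x = 1 := x.2
      have h4 : (((x : S0) : G)) ^ 2 = 1 := congrArg Subtype.val h3
      simp only [T, Finset.mem_insert, Finset.mem_singleton]
      exact h2 _ (x : S0).2 h4
    have h3 : Nat.card φ.ker ≤ Nat.card T := by
      refine Nat.card_le_card_of_injective (fun x : φ.ker => (⟨((x : S0) : G), hT x⟩ : T)) ?_
      intro x y hxy
      apply Subtype.ext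
      apply Subtype.ext
      exact congrArg (fun z : T => (z : G)) hxy
    refine h3.trans ?_
    rw [Nat.card_eq_fintype_card, Fintype.card_coe]
    exact Finset.card_le_four
  have h4 : Nat.card φ.ker * Nat.card φ.range = Nat.card S0 := by
    rw [← Subgroup.index_ker]
    exact Subgroup.card_mul_index _
  have h5 : Nat.card S2 ≤ Nat.card φ.range := by
    rw [hcard] at h4
    nlinarith
  have h6 : φ.range = ⊤ := Subgroup.eq_top_of_le_card _ h5
  intro C hC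
  have h7 : (⟨C, hC⟩ : S2) ∈ φ.range := by
    rw [h6]
    exact Subgroup.mem_top _
  obtain ⟨D, hD⟩ := h7
  exact ⟨D, D.2, congrArg Subtype.val hD⟩

theorem exists_eighth {K : Type*} [Field K] [NumberField K] {a : ℕ} {s : K} (hb : Base5 K a s)
    {r1 r2 : ℕ} (h1 : r1 ∣ a) (h2 : r2 ∣ a) {e1 e2 : Ideal (𝓞 K)}
    (he1 : Ideal.absNorm e1 % 4 = 1) (hea1 : Nat.Coprime (Ideal.absNorm e1) a)
    (he2 : Ideal.absNorm e2 % 4 = 1) (hea2 : Nat.Coprime (Ideal.absNorm e2) a)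
    (j11 : jacobiSym r1 (Ideal.absNorm e1) = -1) (j12 : jacobiSym r2 (Ideal.absNorm e1) = 1)
    (j22 : jacobiSym r2 (Ideal.absNorm e2) = -1) :
    ∃ S0 S2 : Subgroup (ClassGroup (𝓞 K)), S2 ≤ S0 ∧
      2 * Nat.card S0 = Fintype.card (ClassGroup (𝓞 K)) ∧
      8 * Nat.card S2 = Fintype.card (ClassGroup (𝓞 K)) ∧
      (∀ C ∈ S0, ∃ b : Ideal (𝓞 K), Ideal.absNorm b % 4 = 1 ∧ kl b = C) ∧
      (∀ b : Ideal (𝓞 K), Ideal.absNorm b % 4 = 1 → kl b ∈ S0) ∧
      (∀ b : Ideal (𝓞 K), Ideal.absNorm b % 4 = 1 → Nat.Coprime (Ideal.absNorm b) a →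
        (kl b ∈ S2 ↔ jacobiSym r1 (Ideal.absNorm b) = 1 ∧
          jacobiSym r2 (Ideal.absNorm b) = 1)) ∧
      ∀ C : ClassGroup (𝓞 K), C ^ 2 ∈ S2 := by
  obtain ⟨S0, S, hS, hc0, hc, hrep, hin, hch, hsq, htr⟩ := exists_quarter hb h1 he1 hea1 j11
  obtain ⟨S0', S', hS', hc0', hc', hrep', hin', hch', hsq', htr'⟩ :=
    exists_quarter hb h2 he2 hea2 j22
  have e1S0 : kl e1 ∈ S0 := hin e1 he1
  have e1S' : kl e1 ∈ S' := (hch' e1 he1 hea1).2 j12
  have e1S : kl e1 ∉ S := by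
    intro h
    rw [hch e1 he1 hea1, j11] at h
    exact absurd h (by decide)
  have hle : S' ≤ S0 := by
    intro C hC
    obtain ⟨b, hb1, rfl⟩ := hrep' C (hS' hC)
    exact hin b hb1
  have hidx : ((S ⊓ S').subgroupOf S').index = 2 := by
    rw [Subgroup.index_eq_two_iff]
    refine ⟨⟨(kl e1)⁻¹, S'.inv_mem e1S'⟩, ?_⟩
    intro b
    rw [Subgroup.mem_subgroupOf, Subgroup.mem_subgroupOf, Subgroup.mem_inf, Subgroup.mem_inf]
    by_cases hbS : (b : ClassGroup (𝓞 K)) ∈ S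
    · refine Or.inr ⟨⟨hbS, b.2⟩, ?_⟩
      rintro ⟨h3, -⟩
      apply e1S
      have h4 : (b : ClassGroup (𝓞 K)) * (kl e1)⁻¹ ∈ S := h3
      have h5 : (kl e1)⁻¹ ∈ S := (S.mul_mem_cancel_left hbS).1 h4
      exact S.inv_mem_iff.1 h5
    · refine Or.inl ⟨⟨?_, ?_⟩, fun h => hbS h.1⟩
      · have h4 := htr (b : ClassGroup (𝓞 K)) (kl e1) (hle b.2) e1S0 e1S hbS
        rw [mul_comm] at h4
        exact h4
      · exact (b * ⟨(kl e1)⁻¹, S'.inv_mem e1S'⟩ : S').2
  have hcard : Nat.card (S ⊓ S' : Subgroup (ClassGroup (𝓞 K))) * 2 = Nat.card S' := by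
    have h3 := Subgroup.card_mul_index ((S ⊓ S').subgroupOf S')
    rw [hidx, Nat.card_congr (Subgroup.subgroupOfEquivOfLe (inf_le_right : S ⊓ S' ≤ S')).toEquiv]
      at h3
    exact h3
  refine ⟨S0, S ⊓ S', inf_le_left.trans hS, hc0, ?_, hrep, hin, ?_, ?_⟩
  · rw [← hc', ← hcard]
    ring
  · intro b hb1 hba
    rw [Subgroup.mem_inf, hch b hb1 hba, hch' b hb1 hba]
  · intro C
    exact Subgroup.mem_inf.2 ⟨hsq C, hsq' C⟩

end Pool.Agent.Work.MP_8efaaa_nt.X5
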