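import Mathlib
import Pool.Agent.Work.MP_8efaaa_nt.X5.Defs
import Pool.Agent.Work.MP_8efaaa_nt.N5.EKl
import Pool.Agent.Work.MP_8efaaa_nt.N5.CDat
import Pool.Agent.Work.MP_8efaaa_nt.N5.DFix
import Pool.Agent.Work.MP_8efaaa_nt.N5.EIo

/-!
# X5/Iot (S-M): the action of an inertia element

PROOF. Copy of the proof of `iota_q` (W5/IIo.lean), with `act5` for `σ := ι ∘ κ` instead of `act4` (`h' := h.rd.id`). `N b = 7 (mod 8)`: from `σ ζ`. If `ι w = w` then `σ w = ι (κ w) = w`, so `jacobiSym = 1` (`w ≠ 0`); if `ι w = -w`: `-1`. The same for `w2` (`cw2`). The formula for `gal ι (PP c)` as there.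
-/

set_option autoImplicit false

namespace Pool.Agent.Work.MP_8efaaa_nt.X5

open NumberField Pool.Agent.Work.MP_8efaaa_nt.R Pool.Agent.Work.MP_8efaaa_nt.N5
  Pool.Agent.Work.MP_8efaaa_nt.W5
open scoped Classical

private theorem jac_one {F : Type*} [Field F] [CharZero F] {J : ℤ} {w : F} (hw : w ≠ 0)
    (h : w = (J : F) * w) : J = 1 := by
  have h5 : ((J : F) - 1) * w = 0 := by linear_combination -h
  rcases mul_eq_zero.mp h5 with h6 | h6
  · have h7 : (J : F) = ((1 : ℤ) : F) := by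
      push_cast
      linear_combination h6
    exact_mod_cast h7
  · exact absurd h6 hw

private theorem jac_neg {F : Type*} [Field F] [CharZero F] {J : ℤ} {w : F} (hw : w ≠ 0)
    (h : -w = (J : F) * w) : J = -1 := by
  have h5 : ((J : F) + 1) * w = 0 := by linear_combination -h
  rcases mul_eq_zero.mp h5 with h6 | h6
  · have h7 : (J : F) = ((-1 : ℤ) : F) := by
      push_cast
      linear_combination h6
    exact_mod_cast h7
  · exact absurd h6 hw

theorem iota_2 {K : Type*} {F : Type*} [Field K] [NumberField K] [Field F] [NumberField F]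
    [Algebra K F] {a r1 r2 : ℕ} {s : K} (hb : Base5 K a s) {S : 𝓞 K}
    (hS : algebraMap (𝓞 K) K S = s) {τ : 𝓞 K ≃+* 𝓞 K} (hτ : τ S = -S) {ζ w w2 : F}
    {X Y V U : Ideal (𝓞 K) → F} {κ : F ≃ₐ[ℚ] F}
    (h : TDat K F a r1 r2 s S τ ζ w w2 X Y V U κ) (h1 : r1 ≠ 0) (h2 : r2 ≠ 0)
    {I : (cQ F).Point →+ (cQ F).Point} (hI : CMI (ζ ^ 2) I) {ι : F ≃ₐ[ℚ] F}
    (hι : ι (algebraMap K F s) = -algebraMap K F s) (hz : ι ζ = ζ) :
    ∃ b : Ideal (𝓞 K), Ideal.absNorm b % 8 = 7 ∧ Nat.Coprime (Ideal.absNorm b) a ∧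
      (ι w = w → jacobiSym r1 (Ideal.absNorm b) = 1) ∧
      (ι w = -w → jacobiSym r1 (Ideal.absNorm b) = -1) ∧
      (ι w2 = w2 → jacobiSym r2 (Ideal.absNorm b) = 1) ∧
      (ι w2 = -w2 → jacobiSym r2 (Ideal.absNorm b) = -1) ∧
      ∀ c, Ideal.absNorm c % 4 = 1 →
        gal ι (PP h.rd.id.gd c) = I (PP h.rd.id.gd (b * cj τ c)) := by
  have hz8 := h.rd.id.gd.z8
  have hζ0 : ζ ≠ 0 := by
    rintro rfl
    rw [zero_pow (by norm_num)] at hz8
    norm_num at hz8
  have hfix : ∀ x : K, ι (κ (algebraMap K F x)) = algebraMap K F x := by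
    have hint : ∀ y : 𝓞 K, ι (κ (algebraMap K F (algebraMap (𝓞 K) K y))) =
        algebraMap K F (algebraMap (𝓞 K) K y) := by
      intro y
      obtain ⟨m, n, hmn⟩ := coords5 hb y
      have e1 : algebraMap K F ((m : K) + n * s) = (m : F) + n * algebraMap K F s := by
        rw [map_add, map_mul, map_intCast, map_intCast]
      rw [hmn, e1, map_add, map_mul, h.rd.id.cs, map_intCast, map_intCast, map_add, map_mul,
        map_neg, hι, map_intCast, map_intCast, neg_neg]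
    intro x
    obtain ⟨y, z, -, hyz⟩ := IsFractionRing.div_surjective (A := 𝓞 K) x
    rw [← hyz, map_div₀, map_div₀, map_div₀, hint, hint]
  let σ : F ≃ₐ[K] F := AlgEquiv.ofRingEquiv (f := (κ.trans ι).toRingEquiv) hfix
  have hσ : ∀ x, σ x = ι (κ x) := fun x => rfl
  obtain ⟨b, hbo, hbM, hbz, hbw, hbw2, hbA⟩ := h.act5 σ
  have h8 : Ideal.absNorm b % 8 = 7 := by
    rw [hσ, h.rd.id.cz, map_pow, hz, pow_mod_zeta hz8 (Ideal.absNorm b)] at hbz
    have ho : Ideal.absNorm b % 2 = 1 := Nat.odd_iff.1 hbo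
    have hr : Ideal.absNorm b % 8 = 1 ∨ Ideal.absNorm b % 8 = 3 ∨ Ideal.absNorm b % 8 = 5 ∨
        Ideal.absNorm b % 8 = 7 := by omega
    have hne : ζ ^ 2 ≠ 1 ∧ ζ ^ 2 ≠ -1 := by
      constructor
      · intro hc
        have : ζ ^ 4 = 1 := by
          calc ζ ^ 4 = (ζ ^ 2) ^ 2 := by ring
            _ = 1 := by rw [hc, one_pow]
        rw [this] at hz8
        norm_num at hz8
      · intro hc
        have : ζ ^ 4 = 1 := by
          calc ζ ^ 4 = (ζ ^ 2) ^ 2 := by ring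
            _ = 1 := by rw [hc]; ring
        rw [this] at hz8
        norm_num at hz8
    rcases hr with hr | hr | hr | hr
    · exfalso
      rw [hr] at hbz
      have h5 : ζ * (ζ ^ 2 + 1) = 0 := by linear_combination ζ ^ 3 * hz8 - hbz
      rcases mul_eq_zero.mp h5 with h6 | h6
      · exact hζ0 h6
      · exact hne.2 (by linear_combination h6)
    · exfalso
      rw [hr] at hbz
      have h5 : 2 * ζ ^ 3 = 0 := by linear_combination ζ ^ 3 * hz8 - hbz
      rcases mul_eq_zero.mp h5 with h6 | h6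
      · norm_num at h6
      · exact hζ0 (pow_eq_zero_iff (by norm_num) |>.mp h6)
    · exfalso
      rw [hr] at hbz
      have h5 : ζ * (ζ ^ 2 - 1) = 0 := by linear_combination ζ ^ 3 * hz8 - ζ * hz8 - hbz
      rcases mul_eq_zero.mp h5 with h6 | h6
      · exact hζ0 h6
      · exact hne.1 (by linear_combination h6)
    · exact hr
  have hw0 : w ≠ 0 := by
    rintro rfl
    have := h.rd.id.hw
    rw [zero_pow two_ne_zero] at this
    exact (Nat.cast_ne_zero.mpr h1) this.symm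
  have hw20 : w2 ≠ 0 := by
    rintro rfl
    have := h.sq2
    rw [zero_pow two_ne_zero] at this
    exact (Nat.cast_ne_zero.mpr h2) this.symm
  have hj1 : ι w = w → jacobiSym r1 (Ideal.absNorm b) = 1 := by
    intro h3
    rw [hσ, h.rd.id.cw, h3] at hbw
    exact jac_one hw0 (by linear_combination hbw)
  have hj2 : ι w = -w → jacobiSym r1 (Ideal.absNorm b) = -1 := by
    intro h3
    rw [hσ, h.rd.id.cw, h3] at hbw
    exact jac_neg hw0 (by linear_combination hbw)
  have hj3 : ι w2 = w2 → jacobiSym r2 (Ideal.absNorm b) = 1 := by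
    intro h3
    rw [hσ, h.cw2, h3] at hbw2
    exact jac_one hw20 (by linear_combination hbw2)
  have hj4 : ι w2 = -w2 → jacobiSym r2 (Ideal.absNorm b) = -1 := by
    intro h3
    rw [hσ, h.cw2, h3] at hbw2
    exact jac_neg hw20 (by linear_combination hbw2)
  have hcj : ∀ c, OddI c → OddI (cj τ c) := by
    intro c hc
    have := (norm_cj hb hS hτ c).1
    unfold OddI at hc ⊢
    rw [this]
    exact hc
  have hcc : ∀ c, cj τ (cj τ c) = c := fun c => (norm_cj hb hS hτ c).2.2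
  have hX : ∀ c, OddI c → ι (X c) = -X (b * cj τ c) := by
    intro c hc
    have e1 := h.rd.id.cX (cj τ c) (hcj c hc)
    rw [hcc] at e1
    have e2 := (hbA (cj τ c) (hcj c hc)).1
    rw [hσ, e1, map_neg] at e2
    rw [← e2, neg_neg]
  have hI1 : ∀ (x y : F) (hxy : y ^ 2 = x ^ 3 - x), I (pt x y hxy) = pt (-x) (ζ ^ 2 * y)
      (hI.i_eq hxy) := fun x y hxy => hI.pt hxy
  refine ⟨b, h8, hbM, hj1, hj2, hj3, hj4, fun c hc => ?_⟩
  have hco : OddI c := Nat.odd_iff.2 (by omega)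
  have e0 := (norm_cj hb hS hτ c).1
  have e1 := h.rd.id.cY1 (cj τ c) (by rw [e0]; exact hc)
  rw [hcc] at e1
  have e2 := (hbA (cj τ c) (hcj c hco)).2
  rw [hσ, e1, map_neg, map_mul, map_pow, hz] at e2
  have e3 : ι (Y c) = ζ ^ 2 * Y (b * cj τ c) := by
    rw [← e2]
    linear_combination ι (Y c) * hz8
  have hbco : OddI (b * cj τ c) := oddI_mul'.2 ⟨hbo, hcj c hco⟩
  rw [PP_eq h.rd.id.gd hco, PP_eq h.rd.id.gd hbco, gal_pt, hI1, pt_inj]
  exact ⟨hX c hco, e3⟩

end Pool.Agent.Work.MP_8efaaa_nt.X5
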