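import Mathlib
import Pool.Agent.Work.MP_8efaaa_nt.W5.Defs
import Pool.Agent.Work.MP_8efaaa_nt.Rf.Ram
import Pool.Agent.Work.MP_8efaaa_nt.N5.NMi
import Pool.Agent.Work.MP_8efaaa_nt.N5.CDat
import Pool.Agent.Work.MP_8efaaa_nt.N5.EKl
import Pool.Agent.Work.MP_8efaaa_nt.R.RInt

/-!
# X5/Mu (S-M): the square of the ideal `u = m * rI S r`

`m = mI S a`, `n = (1 + a)/2 = absNorm m` (odd), `k = (1 - a)/2` (an even integer: `a = 5 (mod 8)`). PROOF of `mI_sq`: `m * P2 S = span {1 + S}` (proved inside `norm_mI`, N5/NMi.lean) and `P2 * P2 = span {2}` (`Q5.p2_sq`), so `(2) * m * m = (1 + S)^2 = (1 - a + 2 S) = (2) (k + S)`; cancel `(2)`.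
`cj_rI`: `cj τ (rI S r)` is the image of `span {r, S}`: `span {r, -S} = span {r, S}`.
`exists_mu`: `cj (m * rI r * c)^2 = cj(m)^2 cj(rI r)^2 cj(c)^2 = (k - S) (r) cj(c)^2` (`cj` is multiplicative (`Ideal.map_mul`), `rI_sq`), so `δ1 := δ * (k - S) * r`; `(x + y S)(k - S) = (x k + a y) + (y k - x) S` (`S^2 = -a`); `y1 = r (y k - x)`, `r` odd, `k` even: `y1` is even iff `x` is even iff `y` is odd (`x + y` is odd since `δ` is odd:
`Q5.oddI_span`). Norms: `absNorm (k - S) = n^2`, `absNorm (r) = r^2`: squares of odd numbers are `1 (mod 8)`; or `absNorm (span {δ1}) = absNorm (span {δ}) * (absNorm u)^2` with `absNorm u = n r` odd. `kl u ^ 2 = 1`: `u * u = (k + S) (r)` is principal.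
-/

set_option autoImplicit false

namespace Pool.Agent.Work.MP_8efaaa_nt.X5

open NumberField Pool.Agent.Work.MP_8efaaa_nt.R Pool.Agent.Work.MP_8efaaa_nt.N5
  Pool.Agent.Work.MP_8efaaa_nt.W5

private theorem mI_P2 {K : Type*} [Field K] [NumberField K] {a : ℕ} {S : 𝓞 K}
    (hQ : Q5 K a S) : mI S a * Q5.P2 S = Ideal.span {1 + S} := by
  have ha8 := hQ.mod
  obtain ⟨n, hn⟩ : ∃ n : ℕ, (1 + a) / 2 = n := ⟨_, rfl⟩
  have hn2 : 1 + a = 2 * n := by omega
  obtain ⟨m, hm⟩ : ∃ m : ℕ, n = 2 * m + 1 := ⟨n / 2, by omega⟩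
  have h2n : (1 + S) * (1 - S) = 2 * (n : 𝓞 K) := by
    have h1 := hQ.sq
    have h2 := congrArg (Nat.cast (R := 𝓞 K)) hn2
    push_cast at h2
    linear_combination h2 - h1
  unfold mI Q5.P2
  rw [hn, Ideal.span_pair_mul_span_pair]
  apply le_antisymm
  · rw [Ideal.span_le]
    rintro z (rfl | rfl | rfl | rfl)
    · rw [SetLike.mem_coe, Ideal.mem_span_singleton]
      exact ⟨1 - S, by rw [h2n]; ring⟩
    · rw [SetLike.mem_coe, Ideal.mem_span_singleton]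
      exact dvd_mul_left _ _
    · rw [SetLike.mem_coe, Ideal.mem_span_singleton]
      exact dvd_mul_right _ _
    · rw [SetLike.mem_coe, Ideal.mem_span_singleton]
      exact dvd_mul_right _ _
  · rw [Ideal.span_singleton_le_iff_mem]
    have h3 : (n : 𝓞 K) * (1 + S) ∈ Ideal.span {(n : 𝓞 K) * 2, (n : 𝓞 K) * (1 + S),
        (1 + S) * 2, (1 + S) * (1 + S)} := Ideal.subset_span (by simp)
    have h4 : (1 + S) * 2 ∈ Ideal.span {(n : 𝓞 K) * 2, (n : 𝓞 K) * (1 + S),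
        (1 + S) * 2, (1 + S) * (1 + S)} := Ideal.subset_span (by simp)
    have h5 : 1 + S = (n : 𝓞 K) * (1 + S) - (m : 𝓞 K) * ((1 + S) * 2) := by
      rw [hm]
      push_cast
      ring
    have h6 := Ideal.sub_mem _ h3 (Ideal.mul_mem_left _ (m : 𝓞 K) h4)
    rw [← h5] at h6
    exact h6

private theorem mI_sq {K : Type*} [Field K] [NumberField K] {a : ℕ} {S : 𝓞 K}
    (hQ : Q5 K a S) {k : ℤ} (hk : 1 - (a : ℤ) = 2 * k) :
    mI S a * mI S a = Ideal.span {(k : 𝓞 K) + S} := by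
  have h2 : (Ideal.span {(2 : 𝓞 K)} : Ideal (𝓞 K)) ≠ 0 := by
    rw [Ne, Submodule.zero_eq_bot, Ideal.span_singleton_eq_bot]
    exact two_ne_zero
  apply mul_left_cancel₀ h2
  have hk' : (1 : 𝓞 K) - (a : 𝓞 K) = 2 * (k : 𝓞 K) := by exact_mod_cast congrArg (Int.cast (R := 𝓞 K)) hk
  have e1 : (2 : 𝓞 K) * ((k : 𝓞 K) + S) = (1 + S) * (1 + S) := by
    linear_combination (-1 : 𝓞 K) * hk' - hQ.sq
  rw [Ideal.span_singleton_mul_span_singleton, e1, ← Ideal.span_singleton_mul_span_singleton,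
    ← mI_P2 hQ, ← hQ.p2_sq]
  ring

private theorem q5_of {K : Type*} [Field K] [NumberField K] {a : ℕ} {s : K} (hb : Base5 K a s)
    {S : 𝓞 K} (hS : algebraMap (𝓞 K) K S = s) : Q5 K a S := by
  obtain ⟨S', hS1, hQ⟩ := exists_Q5 hb
  obtain rfl : S' = S := RingOfIntegers.ext (hS1.trans hS.symm)
  exact hQ

private theorem u_sq {K : Type*} [Field K] [NumberField K] {a : ℕ} {s : K} (hb : Base5 K a s)
    {S : 𝓞 K} (hS : algebraMap (𝓞 K) K S = s) {r : ℕ} (hr : r ∣ a) {k : ℤ}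
    (hk : 1 - (a : ℤ) = 2 * k) :
    (mI S a * Rf.rI S r) * (mI S a * Rf.rI S r) =
      Ideal.span {((k : 𝓞 K) + S) * (r : 𝓞 K)} := by
  rw [← Ideal.span_singleton_mul_span_singleton, ← mI_sq (q5_of hb hS) hk, ← Rf.rI_sq hb hS hr]
  ring

private theorem u_norm {K : Type*} [Field K] [NumberField K] {a : ℕ} {s : K} (hb : Base5 K a s)
    {S : 𝓞 K} (hS : algebraMap (𝓞 K) K S = s) {r : ℕ} (hr : r ∣ a) (hr8 : r % 8 = 3) :
    Ideal.absNorm (mI S a * Rf.rI S r) % 4 = 1 := by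
  rw [map_mul, norm_mI hb hS, Rf.rI_norm hb hS hr, Nat.mul_mod]
  have h1 := hb.mod
  have h2 : (1 + a) / 2 % 4 = 3 := by omega
  have h3 : r % 4 = 3 := by omega
  rw [h2, h3]

theorem kl_u_sq {K : Type*} [Field K] [NumberField K] {a : ℕ} {s : K} (hb : Base5 K a s)
    {S : 𝓞 K} (hS : algebraMap (𝓞 K) K S = s) {r : ℕ} (hr : r ∣ a) (hr8 : r % 8 = 3) :
    Ideal.absNorm (mI S a * Rf.rI S r) % 4 = 1 ∧ kl (mI S a * Rf.rI S r) ^ 2 = 1 := by
  have h1 := u_norm hb hS hr hr8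
  refine ⟨h1, ?_⟩
  have hu : OddI (mI S a * Rf.rI S r) := by
    unfold OddI
    rw [Nat.odd_iff]
    omega
  obtain ⟨k, hk⟩ : ∃ k : ℤ, 1 - (a : ℤ) = 2 * k := ⟨(1 - (a : ℤ)) / 2, by have := hb.mod; omega⟩
  rw [← kl_pow hu]
  have hu2 : OddI ((mI S a * Rf.rI S r) ^ 2) := by
    unfold OddI
    rw [map_pow]
    exact Odd.pow hu
  rw [kl_eq_one hu2, pow_two]
  exact ⟨_, u_sq hb hS hr hk⟩

theorem exists_mu {K : Type*} [Field K] [NumberField K] {a : ℕ} {s : K} (hb : Base5 K a s)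
    {S : 𝓞 K} (hS : algebraMap (𝓞 K) K S = s) {τ : 𝓞 K ≃+* 𝓞 K} (hτ : τ S = -S)
    {r : ℕ} (hr : r ∣ a) (hr8 : r % 8 = 3) {b c : Ideal (𝓞 K)} {x y : ℤ} {δ : 𝓞 K}
    (hxy : δ = x + y * S) (ho : OddI (Ideal.span {δ}))
    (hδ : Ideal.span {δ} = cj τ (mI S a) * b * cj τ c * cj τ c) :
    ∃ (x1 y1 : ℤ) (δ1 : 𝓞 K), δ1 = x1 + y1 * S ∧
      Ideal.span {δ1} = cj τ (mI S a) * b * cj τ (mI S a * Rf.rI S r * c) *
        cj τ (mI S a * Rf.rI S r * c) ∧
      (Even y → Odd y1) ∧ (Odd y → Even y1) ∧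
      (Ideal.absNorm (Ideal.span {δ}) * Ideal.absNorm (Ideal.span {δ1})) % 8 = 1 := by
  have hQ := q5_of hb hS
  have ha8 := hb.mod
  obtain ⟨k, hk⟩ : ∃ k : ℤ, 1 - (a : ℤ) = 2 * k := ⟨(1 - (a : ℤ)) / 2, by omega⟩
  have hke : Even k := by
    rw [Int.even_iff]
    omega
  have hro : Odd (r : ℤ) := by
    rw [Int.odd_iff]
    omega
  have hodd : Odd (x + y) := by
    rw [hxy] at ho
    exact (hQ.oddI_span x y).1 ho
  have hu2 := u_sq hb hS hr hk
  have hcu : cj τ (mI S a * Rf.rI S r) * cj τ (mI S a * Rf.rI S r) =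
      Ideal.span {((k : 𝓞 K) - S) * (r : 𝓞 K)} := by
    unfold cj
    rw [← Ideal.map_mul, hu2, Ideal.map_span, Set.image_singleton]
    congr 2
    show τ (((k : 𝓞 K) + S) * (r : 𝓞 K)) = _
    rw [map_mul, map_add, map_intCast, map_natCast, hτ, ← sub_eq_add_neg]
  have hcm : cj τ (mI S a * Rf.rI S r * c) = cj τ (mI S a * Rf.rI S r) * cj τ c := by
    unfold cj
    rw [Ideal.map_mul]
  have hspan : Ideal.span {δ * (((k : 𝓞 K) - S) * (r : 𝓞 K))} =
      cj τ (mI S a) * b * cj τ (mI S a * Rf.rI S r * c) *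
        cj τ (mI S a * Rf.rI S r * c) := by
    rw [← Ideal.span_singleton_mul_span_singleton, hδ, ← hcu, hcm]
    ring
  refine ⟨r * (x * k + a * y), r * (y * k - x), δ * (((k : 𝓞 K) - S) * (r : 𝓞 K)), ?_, hspan,
    ?_, ?_, ?_⟩
  · rw [hxy]
    push_cast
    linear_combination (-(y : 𝓞 K) * r) * hQ.sq
  · intro hy
    have hx : Odd x := by
      rw [Int.odd_add] at hodd
      exact hodd.2 hy
    exact hro.mul ((hke.mul_left y).sub_odd hx)
  · intro hy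
    have hx : Even x := by
      rw [Int.odd_add'] at hodd
      exact hodd.1 hy
    exact ((hke.mul_left y).sub hx).mul_left _
  · have hun := u_norm hb hS hr hr8
    have hno : Odd (Ideal.absNorm (Ideal.span {δ}) * Ideal.absNorm (mI S a * Rf.rI S r)) := by
      refine Odd.mul ho ?_
      rw [Nat.odd_iff]
      omega
    have e : Ideal.absNorm (Ideal.span {δ}) *
        Ideal.absNorm (Ideal.span {δ * (((k : 𝓞 K) - S) * (r : 𝓞 K))}) =
        (Ideal.absNorm (Ideal.span {δ}) * Ideal.absNorm (mI S a * Rf.rI S r)) *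
        (Ideal.absNorm (Ideal.span {δ}) * Ideal.absNorm (mI S a * Rf.rI S r)) := by
      rw [← Ideal.span_singleton_mul_span_singleton, ← hcu, map_mul, map_mul,
        (norm_cj hb hS hτ _).1]
      ring
    rw [e]
    obtain ⟨m, hm⟩ := hno
    rw [hm]
    obtain ⟨q, hq⟩ := Nat.even_mul_succ_self m
    have : (2 * m + 1) * (2 * m + 1) = 8 * q + 1 := by
      have h3 : m * (m + 1) = q + q := hq
      nlinarith
    omega

end Pool.Agent.Work.MP_8efaaa_nt.X5
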