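import Mathlib
import Pool.Agent.Work.MP_8efaaa_nt.W5.Defs
import Pool.Agent.Work.MP_8efaaa_nt.W5.TCo
import Pool.Agent.Work.MP_8efaaa_nt.W5.SVal

/-!
# X5/Shf (M): the shift by the ramified prime `q`, for both signs

PROOF of `res_pm`. There is an integer `z` with `q ∣ z^2 + 1` (`q = 1 (mod 4)`; `ZMod.exists_sq_eq_neg_one_iff`). `W ((i - z) (i + z)) = W (-(z^2 + 1)) < 1` (`W q < 1`, integers are integral), so `W (i - z) < 1` or `W (i + z) < 1`, i.e. `1 + i = t + small`, `t = 1 + z` or `1 - z` (integer), not divisible by `q`: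
`(1 + z)(1 - z) = 1 - z^2 = 2 (mod q)`. Fermat: `t^(q-1) = 1 (mod q)` (`ZMod.pow_card_sub_one_eq_one`), so `t^((q-1)/2) = 1` or `-1 (mod q)`, and `W (x^n - y^n) < 1` if `W (x - y) < 1`, `W x ≤ 1`, `W y ≤ 1`.
PROOF of `ram_shift'`. Apply `ram_shift` (W5/SVal.lean) with `-i` in place of `i` (`(-i)^2 = -1`), the same `e`: `q = 5 (mod 8)` gives `(1 - i)^((q-1)/2) = ((1 + i)(-i))^((q-1)/2) = (1 + i)^((q-1)/2) (-1)`, since `(q - 1)/2 = 2 (mod 4)`; so `W ((1 - i)^((q-1)/2) - e) < 1` follows from `h1`.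
It gives `B' - B - Ep ∈ E1 W` with `B = pt (i (1 + u)/v^2) (-((1 - i)(1 + u)/v^3))`, and `I A = (i (1 + u)/v^2, i y)`, `i y = -(i - 1) (1 + u)/v^3 = (1 - i)(1 + u)/v^3`, so `B = -I A` (`hI.pt`, `neg_pt`). So `-I (A' - A) - Ep ∈ E1 W`; apply `I` (`cmi_mem`, W5/E1): `(A' - A) - I Ep ∈ E1 W`, `I Ep = Em`.
PROOF of `shift2`. `phi_PP`, `phi2_PP` (W5/TCo) and `h.uv` as in `shift_q` (W5/GMain.lean, private: copy its beginning). The type: `type_mod` (W5/SVal): for `y` even `W (V^4 + 2 V^2 - 1) < 1` (`e = 1`), for `y` odd `W (V^4 - 2 V^2 - 1) < 1` (`e = -1`). If `ε = e`: `ram_shift`; if `ε = -e`: `ram_shift'`.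
-/

set_option autoImplicit false

namespace Pool.Agent.Work.MP_8efaaa_nt.X5

open NumberField Pool.Agent.Work.MP_8efaaa_nt.R Pool.Agent.Work.MP_8efaaa_nt.N5
  Pool.Agent.Work.MP_8efaaa_nt.W5
open scoped Classical

private theorem Shf_vint {F : Type*} [Field F] [CharZero F] {Γ : Type*}
    [LinearOrderedCommGroupWithZero Γ] (W : Valuation F Γ) (k : ℤ) : W (k : F) ≤ 1 := by
  rcases Int.natAbs_eq k with h | h
  · rw [h, Int.cast_natCast]
    exact vnat W _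
  · rw [h, Int.cast_neg, Int.cast_natCast, Valuation.map_neg]
    exact vnat W _

private theorem Shf_vdvd {F : Type*} [Field F] [CharZero F] {Γ : Type*}
    [LinearOrderedCommGroupWithZero Γ] (W : Valuation F Γ) {q : ℕ} (hWq : W (q : F) < 1) {k : ℤ}
    (h : (q : ℤ) ∣ k) : W (k : F) < 1 := by
  obtain ⟨m, rfl⟩ := h
  rw [Int.cast_mul, Int.cast_natCast, mul_comm]
  exact vltm W (Shf_vint W m) hWq

private theorem Shf_pow {F : Type*} [Field F] {Γ : Type*}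
    [LinearOrderedCommGroupWithZero Γ] (W : Valuation F Γ) {x y : F} (hx : W x ≤ 1) (hy : W y ≤ 1)
    (hxy : W (x - y) < 1) (n : ℕ) : W (x ^ n - y ^ n) < 1 := by
  induction n with
  | zero =>
    rw [pow_zero, pow_zero, sub_self, map_zero]
    exact zero_lt_one
  | succ n ih =>
    rw [show x ^ (n + 1) - y ^ (n + 1) = x * (x ^ n - y ^ n) + y ^ n * (x - y) by ring]
    refine vlt W (vltm W hx ih) (vltm W ?_ hxy)
    rw [map_pow]
    exact pow_le_one₀ zero_le hy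

theorem res_pm {F : Type*} [Field F] [CharZero F] {Γ : Type*}
    [LinearOrderedCommGroupWithZero Γ] (W : Valuation F Γ) {q : ℕ} (hq : q.Prime)
    (hq8 : q % 8 = 5) (hWq : W (q : F) < 1) {i : F} (hi : i ^ 2 = -1) :
    W ((1 + i) ^ ((q - 1) / 2) - 1) < 1 ∨ W ((1 + i) ^ ((q - 1) / 2) + 1) < 1 := by
  have hqF : Fact q.Prime := ⟨hq⟩
  have h1le : W (1 : F) ≤ 1 := by rw [map_one]
  have hi1 : W i ≤ 1 := by
    apply vsq_le
    rw [hi, Valuation.map_neg]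
    exact h1le
  obtain ⟨r, hr⟩ := ZMod.exists_sq_eq_neg_one_iff.2 (show q % 4 ≠ 3 by omega)
  obtain ⟨z, hz⟩ := ZMod.intCast_surjective r
  have hz1 : (q : ℤ) ∣ z ^ 2 + 1 := by
    rw [← ZMod.intCast_zmod_eq_zero_iff_dvd]
    push_cast
    rw [hz, pow_two, ← hr]
    ring
  have hq2 : ¬ (q : ℤ) ∣ 2 := by
    intro h
    have h1 := Int.le_of_dvd (by norm_num) h
    omega
  -- the integer congruent to `1 + i`
  obtain ⟨t, ht, htq⟩ : ∃ t : ℤ, W ((1 + i) - (t : F)) < 1 ∧ ¬ (q : ℤ) ∣ t := by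
    have h1 : W ((i - z) * (i + z)) < 1 := by
      have h2 : (i - z) * (i + z) = -(((z ^ 2 + 1 : ℤ)) : F) := by
        push_cast
        linear_combination hi
      rw [h2, Valuation.map_neg]
      exact Shf_vdvd W hWq hz1
    have h3 : W (i - z) < 1 ∨ W (i + z) < 1 := by
      by_contra h4
      push Not at h4
      rw [map_mul] at h1
      exact absurd h1 (not_lt.2 (one_le_mul h4.1 h4.2))
    rcases h3 with h3 | h3
    · refine ⟨1 + z, ?_, ?_⟩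
      · push_cast
        rwa [add_sub_add_left_eq_sub]
      · intro h4
        apply hq2
        have h5 : (2 : ℤ) = (z ^ 2 + 1) + (1 + z) * (1 - z) := by ring
        rw [h5]
        exact dvd_add hz1 (h4.mul_right _)
    · refine ⟨1 - z, ?_, ?_⟩
      · push_cast
        rwa [show (1 + i) - (1 - (z : F)) = i + z by ring]
      · intro h4
        apply hq2
        have h5 : (2 : ℤ) = (z ^ 2 + 1) + (1 - z) * (1 + z) := by ring
        rw [h5]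
        exact dvd_add hz1 (h4.mul_right _)
  have hp := Shf_pow W (vle W h1le hi1) (Shf_vint W t) ht ((q - 1) / 2)
  have hF : ((t : ZMod q) ^ ((q - 1) / 2)) ^ 2 = 1 := by
    rw [← pow_mul, show (q - 1) / 2 * 2 = q - 1 by omega]
    apply ZMod.pow_card_sub_one_eq_one
    rwa [Ne, ZMod.intCast_zmod_eq_zero_iff_dvd]
  rcases sq_eq_sq_iff_eq_or_eq_neg.1 (hF.trans (one_pow 2).symm) with h1 | h1
  · left
    have h2 : (q : ℤ) ∣ t ^ ((q - 1) / 2) - 1 := by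
      rw [← ZMod.intCast_zmod_eq_zero_iff_dvd]
      push_cast
      rw [h1, sub_self]
    have h3 := Shf_vdvd W hWq h2
    push_cast at h3
    rw [show (1 + i) ^ ((q - 1) / 2) - 1 = ((1 + i) ^ ((q - 1) / 2) - (t : F) ^ ((q - 1) / 2)) +
      ((t : F) ^ ((q - 1) / 2) - 1) by ring]
    exact vlt W hp h3
  · right
    have h2 : (q : ℤ) ∣ t ^ ((q - 1) / 2) + 1 := by
      rw [← ZMod.intCast_zmod_eq_zero_iff_dvd]
      push_cast
      rw [h1, neg_add_cancel]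
    have h3 := Shf_vdvd W hWq h2
    push_cast at h3
    rw [show (1 + i) ^ ((q - 1) / 2) + 1 = ((1 + i) ^ ((q - 1) / 2) - (t : F) ^ ((q - 1) / 2)) +
      ((t : F) ^ ((q - 1) / 2) + 1) by ring]
    exact vlt W hp h3

theorem ram_shift' {F : Type*} [Field F] [CharZero F] {Γ : Type*}
    [LinearOrderedCommGroupWithZero Γ] (W : Valuation F Γ) (h2 : W 2 = 1) {q : ℕ}
    [Fact q.Prime] (hq8 : q % 8 = 5) (hWq : W (q : F) < 1) {i v u v' u' : F}
    {I : (cQ F).Point →+ (cQ F).Point} (hI : CMI i I)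
    (hv : W v = 1) (hv' : W v' = 1) (hu : u ^ 2 + v ^ 4 = 1) (hu' : u' ^ 2 + v' ^ 4 = 1)
    (kv : W (v' - v ^ q) < 1) (ku : W (u' - u ^ q) < 1) {e : F} (he : e = 1 ∨ e = -1)
    (hty : W (v ^ 4 + 2 * e * v ^ 2 - 1) < 1) (h1 : W ((1 + i) ^ ((q - 1) / 2) + e) < 1)
    {h : (-((1 + i) * (1 + u) / v ^ 3)) ^ 2 =
      (-(i * (1 + u) / v ^ 2)) ^ 3 - -(i * (1 + u) / v ^ 2)}
    {h' : (-((1 + i) * (1 + u') / v' ^ 3)) ^ 2 =
      (-(i * (1 + u') / v' ^ 2)) ^ 3 - -(i * (1 + u') / v' ^ 2)} :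
    pt (-(i * (1 + u') / v' ^ 2)) (-((1 + i) * (1 + u') / v' ^ 3)) h' -
      pt (-(i * (1 + u) / v ^ 2)) (-((1 + i) * (1 + u) / v ^ 3)) h - Em F ∈ E1 W := by
  have hi := hI.i2
  have key : ∀ (u v : F) (h : (-((1 + i) * (1 + u) / v ^ 3)) ^ 2 =
      (-(i * (1 + u) / v ^ 2)) ^ 3 - -(i * (1 + u) / v ^ 2)),
      ∃ g : (-((1 + -i) * (1 + u) / v ^ 3)) ^ 2 =
      (-(-i * (1 + u) / v ^ 2)) ^ 3 - -(-i * (1 + u) / v ^ 2),
      I (pt (-(i * (1 + u) / v ^ 2)) (-((1 + i) * (1 + u) / v ^ 3)) h) =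
        -(pt (-(-i * (1 + u) / v ^ 2)) (-((1 + -i) * (1 + u) / v ^ 3)) g) := by
    intro u v h
    have g : (-((1 + -i) * (1 + u) / v ^ 3)) ^ 2 =
      (-(-i * (1 + u) / v ^ 2)) ^ 3 - -(-i * (1 + u) / v ^ 2) := by
      have e1 : (-((1 + -i) * (1 + u) / v ^ 3)) ^ 2 =
          -(-((1 + i) * (1 + u) / v ^ 3)) ^ 2 := by
        have e2 : (1 + -i) ^ 2 = -(1 + i) ^ 2 := by linear_combination 2 * hi
        rw [neg_sq, neg_sq, div_pow, div_pow, mul_pow, mul_pow, e2]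
        ring
      rw [e1, h]
      ring
    refine ⟨g, ?_⟩
    rw [hI.pt, neg_pt, pt_inj]
    constructor
    · ring
    · have e3 : i * (1 + i) = -(1 + -i) := by linear_combination hi
      calc i * -((1 + i) * (1 + u) / v ^ 3) = -((i * (1 + i)) * (1 + u) / v ^ 3) := by ring
        _ = - -((1 + -i) * (1 + u) / v ^ 3) := by rw [e3]; ring
  obtain ⟨g, e1⟩ := key u v h
  obtain ⟨g', e1'⟩ := key u' v' h'
  have hi' : (-i) ^ 2 = -1 := by rw [neg_sq, hi]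
  have h3 : W ((1 + -i) ^ ((q - 1) / 2) - e) < 1 := by
    obtain ⟨k, hk⟩ : ∃ k, (q - 1) / 2 = 4 * k + 2 := ⟨q / 8, by omega⟩
    have e4 : (1 + -i) = (1 + i) * (-i) := by linear_combination hi
    have e5 : (-i) ^ (4 * k + 2) = -1 := by
      rw [pow_add, pow_mul, show (-i) ^ 4 = 1 by
        rw [show (-i) ^ 4 = ((-i) ^ 2) ^ 2 by ring, hi']; norm_num, one_pow, one_mul, hi']
    have e6 : (1 + -i) ^ ((q - 1) / 2) = -(1 + i) ^ ((q - 1) / 2) := by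
      rw [e4, mul_pow]
      nth_rewrite 2 [hk]
      rw [e5]
      ring
    rw [e6, show -(1 + i) ^ ((q - 1) / 2) - e = -((1 + i) ^ ((q - 1) / 2) + e) by ring,
      Valuation.map_neg]
    exact h1
  have h4 := ram_shift W h2 hq8 hWq hi' hv hv' hu hu' kv ku he hty h3 (h := g) (h' := g')
  have hEm : I (Em F) = Ep F := by
    unfold Em Ep
    rw [hI.pt, pt_inj]
    exact ⟨neg_neg _, mul_zero _⟩
  have hEp : -Ep F = Ep F := by
    unfold Ep
    rw [neg_pt, pt_inj]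
    exact ⟨rfl, neg_zero⟩
  have h5 : I (pt (-(i * (1 + u') / v' ^ 2)) (-((1 + i) * (1 + u') / v' ^ 3)) h' -
      pt (-(i * (1 + u) / v ^ 2)) (-((1 + i) * (1 + u) / v ^ 3)) h - Em F) ∈ E1 W := by
    rw [map_sub, map_sub, e1, e1', hEm]
    have h6 := (E1 W).neg_mem h4
    have h7 : -(pt (-(-i * (1 + u') / v' ^ 2)) (-((1 + -i) * (1 + u') / v' ^ 3)) g') -
        -(pt (-(-i * (1 + u) / v ^ 2)) (-((1 + -i) * (1 + u) / v ^ 3)) g) - Ep F =
        -(pt (-(-i * (1 + u') / v' ^ 2)) (-((1 + -i) * (1 + u') / v' ^ 3)) g' -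
          pt (-(-i * (1 + u) / v ^ 2)) (-((1 + -i) * (1 + u) / v ^ 3)) g - Ep F) := by
      nth_rewrite 1 [← hEp]
      abel
    rw [h7]
    exact h6
  have h8 := cmi_mem hI h5
  rw [hI.sq] at h8
  have h9 := (E1 W).neg_mem h8
  rwa [neg_neg] at h9

theorem shift2 {K : Type*} {F : Type} [Field K] [NumberField K] [Field F] [NumberField F]
    [Algebra K F] {a d : ℕ} {s : K} {S : 𝓞 K} {τ : 𝓞 K ≃+* 𝓞 K} {ζ w : F}
    {X Y V U : Ideal (𝓞 K) → F} {κ : F ≃ₐ[ℚ] F} (h : IDat K F a d s S τ ζ w X Y V U κ)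
    {I : (cQ F).Point →+ (cQ F).Point} (hI : CMI (ζ ^ 2) I) {Γ : Type*}
    [LinearOrderedCommGroupWithZero Γ] (W : Valuation F Γ) (h2 : W 2 = 1) {q : ℕ}
    [Fact q.Prime] (hq8 : q % 8 = 5) (hWq : W (q : F) < 1) {qi c : Ideal (𝓞 K)}
    (hc : OddI c) (hqc : OddI (qi * c)) (hv : W (V c) = 1) (hv' : W (V (qi * c)) = 1)
    (kv : W (V (qi * c) - V c ^ q) < 1) (ku : W (U (qi * c) - U c ^ q) < 1) {y : ℤ}
    (ht : (Even y → (2 : ℤ) • gpi I (gpi I (PP h.gd c)) - Em F ∈ E1 W) ∧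
      (Odd y → (2 : ℤ) • gpi I (gpi I (PP h.gd c)) - Ep F ∈ E1 W)) :
    (W ((1 + ζ ^ 2) ^ ((q - 1) / 2) - 1) < 1 →
      (Even y → gpi I (PP h.gd (qi * c)) - gpi I (PP h.gd c) - Ep F ∈ E1 W) ∧
      (Odd y → gpi I (PP h.gd (qi * c)) - gpi I (PP h.gd c) - Em F ∈ E1 W)) ∧
    (W ((1 + ζ ^ 2) ^ ((q - 1) / 2) + 1) < 1 →
      (Even y → gpi I (PP h.gd (qi * c)) - gpi I (PP h.gd c) - Em F ∈ E1 W) ∧
      (Odd y → gpi I (PP h.gd (qi * c)) - gpi I (PP h.gd c) - Ep F ∈ E1 W)) := by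
  obtain ⟨y1, e1, g1⟩ := phi2_PP h hI hc
  rw [g1] at ht
  obtain ⟨e2, g2⟩ := phi_PP h hI hc
  obtain ⟨e3, g3⟩ := phi_PP h hI hqc
  rw [g2, g3]
  obtain ⟨-, u1, -⟩ := h.uv c hc
  obtain ⟨-, u2, -⟩ := h.uv _ hqc
  have t1 : Even y → W (V c ^ 4 + 2 * 1 * V c ^ 2 - 1) < 1 := fun hy => by
    rw [mul_one]
    exact (type_mod W h2 hv).1 (ht.1 hy)
  have t2 : Odd y → W (V c ^ 4 + 2 * -1 * V c ^ 2 - 1) < 1 := fun hy => by
    have e4 : V c ^ 4 + 2 * -1 * V c ^ 2 - 1 = V c ^ 4 - 2 * V c ^ 2 - 1 := by ring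
    rw [e4]
    exact (type_mod W h2 hv).2 (ht.2 hy)
  refine ⟨fun h1 => ⟨fun hy => ?_, fun hy => ?_⟩, fun h1 => ⟨fun hy => ?_, fun hy => ?_⟩⟩
  · exact ram_shift W h2 hq8 hWq hI.i2 hv hv' u1 u2 kv ku (e := 1) (Or.inl rfl) (t1 hy) h1
  · exact ram_shift' W h2 hq8 hWq hI hv hv' u1 u2 kv ku (e := -1) (Or.inr rfl) (t2 hy)
      (by rwa [← sub_eq_add_neg])
  · exact ram_shift' W h2 hq8 hWq hI hv hv' u1 u2 kv ku (e := 1) (Or.inl rfl) (t1 hy) h1
  · exact ram_shift W h2 hq8 hWq hI.i2 hv hv' u1 u2 kv ku (e := -1) (Or.inr rfl) (t2 hy)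
      (by rwa [sub_neg_eq_add])

end Pool.Agent.Work.MP_8efaaa_nt.X5
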