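import Mathlib
import Pool.Agent.Work.MP_8efaaa_nt.W5.Defs
import Pool.Agent.Work.MP_8efaaa_nt.W5.TDe
import Pool.Agent.Work.MP_8efaaa_nt.W5.GNo

/-!
# X5/TOne (M): the two sums give a contradiction

PROOF of `tt_one` (copy the proof of `tt_five`, W5/TDe.lean, with these changes). `t = tt δ`, `δ' = τ δ`, `t' = tt δ'`, `δ δ' = N = absNorm`, `N = 1 (mod 8)`, so `t + t' = tt (N) = 0` (`tr1`, `e8 N = 1`; `tde_e8` is private in TDe: copy it). `gal κ t = -I t' = I t`. If `gpi I t = Ez`: `gpi I Ep = Ez` (formula for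
`gpi I`, see `tde_A`), so `t = Ep` or `t = Ep + Ez = Em` (`hI.gmod.gpi_eq_zero`: the kernel of `gpi I` is `{0, Ez}`). `gal κ Ep = Ep`, `gal κ Em = Em`, but `I Ep = Em`, `I Em = Ep` (`hI.pt`: `I (x, y) = (-x, ..)`): contradiction to `gal κ t = I t`, as `Ep ≠ Em`.
PROOF of `no_both2` (copy of `no_both`, W5/GNo.lean): `sum_compare` (N5/EKl) for `b2`, `b1`: odd `p`, `q` with `(p) ∏ b2 = (q) ∏ b1` and `∑ PP (b2) = ∑ PP (b1) + tt (q) - tt (p)`. Apply `gpi I`: `- gpi I (tt δ) - gpi I (tt δ1) + Ez = gpi I (tt q) - gpi I (tt p)`. `2 gpi I (tt x) = 0` for all odd `x` (`three_tt`, see `g2` there), so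
`gpi I (tt (q p δ δ1)) = Ez` (`tt_mul`). Norms modulo `8`: `N(p) · 1 = N(q) · 1`, so `N(p) N(q) = 1` (squares of odd numbers), `N(δ) N(δ1) = 1` (`m3`): `tt_one` for `q p δ δ1`: contradiction.
-/

set_option autoImplicit false

namespace Pool.Agent.Work.MP_8efaaa_nt.X5

open NumberField Pool.Agent.Work.MP_8efaaa_nt.R Pool.Agent.Work.MP_8efaaa_nt.N5
  Pool.Agent.Work.MP_8efaaa_nt.W5
open scoped Classical

private theorem tone_e8 {K : Type*} {F : Type*} [Field K] [NumberField K] [Field F]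
    [NumberField F] [Algebra K F] {s : K} {S : 𝓞 K} {ζ : F} {X Y : Ideal (𝓞 K) → F}
    (hS : algebraMap (𝓞 K) K S = s) (hG : GDat K F s ζ X Y) {x y : ℤ}
    {δ : 𝓞 K} (hδ : δ = x + 4 * y * S) (hx : Odd x) (ho : OddI (Ideal.span {δ})) :
    e8 (x + 4 * y) = 1 → tt hG (Ideal.span {δ}) = 0 := by
  have hδ' : algebraMap (𝓞 K) K δ = x + 4 * y * s := by
    rw [hδ, ← hS]
    simp only [map_add, map_mul, map_intCast, map_ofNat]
  obtain ⟨t1, -⟩ := hG.tr1 x y δ hx hδ' 1 oddI_one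
  rw [mul_one] at t1
  unfold tt
  rw [PP_eq hG ho, PP_eq hG oddI_one]
  intro he
  obtain ⟨u1, u2⟩ := t1 he
  rw [sub_eq_zero, pt_inj]
  exact ⟨u1, u2⟩

/-- the point `(1, 0)` is mapped to `(0, 0)` -/
private theorem tone_Ep {F : Type*} [Field F] [CharZero F] {i : F}
    {I : (cQ F).Point →+ (cQ F).Point} (hI : CMI i I) : gpi I (Ep F) = Ez F := by
  have hne : (1 : F) ≠ -1 := by
    intro h
    have h2 : (2 : F) = 0 := by linear_combination h
    exact two_ne_zero h2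
  have hs : (cQ F).slope 1 (-1) 0 (i * 0) = 0 := by
    rw [WeierstrassCurve.Affine.slope_of_X_ne hne, mul_zero, sub_zero, zero_div]
  have hX : (cQ F).addX 1 (-1) 0 = 0 := by
    simp only [WeierstrassCurve.Affine.addX, cQ]
    ring
  have hY : (cQ F).addY 1 (-1) 0 0 = 0 := by
    simp only [WeierstrassCurve.Affine.addY, WeierstrassCurve.Affine.negY,
      WeierstrassCurve.Affine.negAddY, hX]
    simp only [cQ]
    ring
  rw [gpi_apply]
  unfold Ep Ez
  rw [hI.pt]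
  unfold pt
  rw [WeierstrassCurve.Affine.Point.add_of_X_ne hne, WeierstrassCurve.Affine.Point.some.injEq, hs]
  exact ⟨hX, hY⟩

private theorem tone_IEp {F : Type*} [Field F] [CharZero F] {i : F}
    {I : (cQ F).Point →+ (cQ F).Point} (hI : CMI i I) : I (Ep F) ≠ Ep F := by
  intro h
  unfold Ep at h
  rw [hI.pt, pt_inj] at h
  have h2 : (2 : F) = 0 := by linear_combination -h.1
  exact two_ne_zero h2

theorem tt_one {K : Type*} {F : Type*} [Field K] [NumberField K] [Field F] [NumberField F]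
    [Algebra K F] {a d : ℕ} {s : K} (hb : Base5 K a s)
    {S : 𝓞 K} (hS : algebraMap (𝓞 K) K S = s) {τ : 𝓞 K ≃+* 𝓞 K}
    (hτ : τ S = -S) {ζ w : F} {X Y V U : Ideal (𝓞 K) → F} {κ : F ≃ₐ[ℚ] F}
    (h : IDat K F a d s S τ ζ w X Y V U κ)
    {I : (cQ F).Point →+ (cQ F).Point} (hI : CMI (ζ ^ 2) I) {δ : 𝓞 K}
    (h5 : Ideal.absNorm (Ideal.span {δ}) % 8 = 1) :
    gpi I (tt h.gd (Ideal.span {δ})) ≠ Ez F := by
  intro hz
  have hG := h.gd
  have ho : OddI (Ideal.span {δ}) := Nat.odd_iff.2 (by omega)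
  obtain ⟨n1, n2, -⟩ := norm_cj hb hS hτ (Ideal.span {δ})
  have hc : cj τ (Ideal.span {δ}) = Ideal.span {τ δ} := by
    unfold cj
    rw [Ideal.map_span, Set.image_singleton]
    rfl
  rw [hc] at n1 n2
  have ho' : OddI (Ideal.span {τ δ}) := by
    unfold OddI at ho ⊢
    rw [n1]
    exact ho
  -- `t + t' = 0`
  have h0 : tt h.gd (Ideal.span {δ}) + tt h.gd (Ideal.span {τ δ}) = 0 := by
    rw [← tt_mul hb h.gd ho ho', n2]
    have e1 : (((Ideal.absNorm (Ideal.span {δ}) : ℕ) : 𝓞 K)) =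
        (((Ideal.absNorm (Ideal.span {δ}) : ℕ) : ℤ) : 𝓞 K) + 4 * ((0 : ℤ) : 𝓞 K) * S := by
      push_cast
      ring
    refine tone_e8 hS h.gd e1 ?_ ?_ ?_
    · exact_mod_cast ho
    · rw [← n2]
      exact oddI_mul'.2 ⟨ho, ho'⟩
    · unfold e8
      rw [if_pos]
      omega
  have hTz : Ez F = pt 0 0 (by ring) := rfl
  have hIz : I (Ez F) = Ez F := hI.gmod.I_T
  -- the conjugation
  have hκP : ∀ c, Ideal.absNorm c % 4 = 1 → gal κ (PP h.gd c) = -I (PP h.gd (cj τ c)) := by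
    intro c h4
    have hco : OddI c := oddI_of_one h4
    have hco' : OddI (cj τ c) := by
      have := (norm_cj hb hS hτ c).1
      unfold OddI at hco ⊢
      rw [this]
      exact hco
    rw [PP_eq h.gd hco, PP_eq h.gd hco', gal_pt, hI.pt, neg_pt, pt_inj, h.cX c hco, h.cY1 c h4]
    exact ⟨rfl, rfl⟩
  have hcj1 : cj τ (1 : Ideal (𝓞 K)) = 1 := by
    unfold cj
    rw [Ideal.one_eq_top, Ideal.map_top]
  have hκt : gal κ (tt h.gd (Ideal.span {δ})) = I (tt h.gd (Ideal.span {δ})) := by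
    have e1 : gal κ (tt h.gd (Ideal.span {δ})) = -I (tt h.gd (Ideal.span {τ δ})) := by
      unfold tt
      rw [map_sub, hκP _ (by omega), hκP 1 (by rw [map_one]; norm_num), hc, hcj1, map_sub]
      abel
    have e2 : tt h.gd (Ideal.span {τ δ}) = -tt h.gd (Ideal.span {δ}) :=
      eq_neg_of_add_eq_zero_right h0
    rw [e1, e2, map_neg, neg_neg]
  have hκE : gal κ (Ep F) = Ep F := by
    have e1 : gal κ (Ep F) = gal κ (pt (1 : F) 0 (by norm_num)) := rfl
    have e2 : Ep F = pt (1 : F) 0 (by norm_num) := rfl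
    rw [e1, gal_pt, e2, pt_inj, map_zero, map_one]
    exact ⟨rfl, rfl⟩
  have hκz : gal κ (Ez F) = Ez F := by
    have : gal κ (Ez F) = gal κ (pt (0 : F) 0 (by ring)) := rfl
    rw [this, gal_pt, hTz, pt_inj, map_zero]
    exact ⟨rfl, rfl⟩
  have hker : gpi I (tt h.gd (Ideal.span {δ}) - Ep F) = 0 := by
    rw [map_sub, hz, tone_Ep hI, sub_self]
  rcases hI.gmod.gpi_eq_zero.1 hker with h1 | h1
  · rw [sub_eq_zero] at h1
    rw [h1, hκE] at hκt
    exact tone_IEp hI hκt.symm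
  · have h2 : tt h.gd (Ideal.span {δ}) = Ez F + Ep F := by
      rw [hTz, ← h1]
      abel
    rw [h2, map_add, map_add, hκE, hκz, hIz, add_right_inj] at hκt
    exact tone_IEp hI hκt.symm

private theorem tone_mod {p q d x y : ℕ} (hp : Odd p) (h : p * y = q * x)
    (hx : x % 8 = 1) (hy : y % 8 = 1) (hd : d % 8 = 1) : (q * (p * d)) % 8 = 1 := by
  have sq8 : ∀ z : ℕ, Odd z → z * z ≡ 1 [MOD 8] := by
    intro z hz
    have h1 : z % 8 = 1 ∨ z % 8 = 3 ∨ z % 8 = 5 ∨ z % 8 = 7 := by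
      have := Nat.odd_iff.1 hz
      omega
    unfold Nat.ModEq
    rw [Nat.mul_mod]
    rcases h1 with h | h | h | h <;> rw [h]
  have hx' : x ≡ 1 [MOD 8] := hx
  have hy' : y ≡ 1 [MOD 8] := hy
  have hd' : d ≡ 1 [MOD 8] := hd
  have e1 : q ≡ p [MOD 8] := by
    have a1 := hx'.mul_left q
    have a2 := hy'.mul_left p
    rw [mul_one] at a1 a2
    exact a1.symm.trans (h ▸ a2)
  have e2 : q * (p * d) ≡ p * (p * 1) [MOD 8] := e1.mul (hd'.mul_left p)
  rw [mul_one] at e2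
  exact e2.trans (sq8 p hp)

theorem no_both2 {K : Type*} {F : Type*} [Field K] [NumberField K] [Field F] [NumberField F]
    [Algebra K F] {a d : ℕ} {s : K} (hb : Base5 K a s)
    {S : 𝓞 K} (hS : algebraMap (𝓞 K) K S = s) {τ : 𝓞 K ≃+* 𝓞 K}
    (hτ : τ S = -S) {ζ w : F} {X Y V U : Ideal (𝓞 K) → F} {κ : F ≃ₐ[ℚ] F}
    (h : IDat K F a d s S τ ζ w X Y V U κ)
    {I : (cQ F).Point →+ (cQ F).Point} (hI : CMI (ζ ^ 2) I) {J : Type*} [Fintype J]
    (b1 b2 : J → Ideal (𝓞 K)) (n1 : ∀ j, Ideal.absNorm (b1 j) % 4 = 1)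
    (n2 : ∀ j, Ideal.absNorm (b2 j) % 4 = 1) (hkl : ∀ j, kl (b1 j) = kl (b2 j))
    {P : (cQ F).Point} {δ δ1 : 𝓞 K}
    (m1 : (∏ j, Ideal.absNorm (b1 j)) % 8 = 1)
    (m2 : (∏ j, Ideal.absNorm (b2 j)) % 8 = 1)
    (m3 : (Ideal.absNorm (Ideal.span {δ}) * Ideal.absNorm (Ideal.span {δ1})) % 8 = 1)
    (s1 : gpi I (∑ j, PP h.gd (b1 j)) = P)
    (s2 : gpi I (∑ j, PP h.gd (b2 j)) = P - gpi I (tt h.gd (Ideal.span {δ})) -
      gpi I (tt h.gd (Ideal.span {δ1})) + Ez F) :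
    False := by
  obtain ⟨p, q, hp, hq, e1, e2⟩ := sum_compare hb h.gd b2 b1 n2 n1 (fun j => (hkl j).symm)
  have hd12 : Odd (Ideal.absNorm (Ideal.span {δ}) * Ideal.absNorm (Ideal.span {δ1})) :=
    Nat.odd_iff.2 (by omega)
  have hδ : OddI (Ideal.span {δ}) := (Nat.odd_mul.1 hd12).1
  have hδ1 : OddI (Ideal.span {δ1}) := (Nat.odd_mul.1 hd12).2
  have hdd : OddI (Ideal.span {δ * δ1}) := by
    rw [← Ideal.span_singleton_mul_span_singleton]
    exact oddI_mul'.2 ⟨hδ, hδ1⟩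
  have hpd : OddI (Ideal.span {p * (δ * δ1)}) := by
    rw [← Ideal.span_singleton_mul_span_singleton]
    exact oddI_mul'.2 ⟨hp, hdd⟩
  -- the multiplication by two
  have g2 : ∀ x : 𝓞 K, OddI (Ideal.span {x}) →
      -gpi I (tt h.gd (Ideal.span {x})) = gpi I (tt h.gd (Ideal.span {x})) := by
    intro x hx
    have g3 : (gpi I) ((gpi I) ((gpi I) (tt h.gd (Ideal.span {x})))) = 0 := three_tt h.gd hI hx
    have g2 : (2 : ℤ) • gpi I (tt h.gd (Ideal.span {x})) = 0 := by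
      rw [hI.gmod.gpi_gpi] at g3
      have g4 := congrArg I g3
      rw [map_zsmul, hI.sq, map_zero, smul_neg, neg_eq_zero] at g4
      exact g4
    rw [two_zsmul] at g2
    exact (eq_neg_of_add_eq_zero_left g2).symm
  -- the sum
  have k1 := congrArg (gpi I) e2
  rw [map_sub, map_add, s1, s2] at k1
  have k2 : gpi I (tt h.gd (Ideal.span {q * (p * (δ * δ1))})) = Ez F := by
    rw [← Ideal.span_singleton_mul_span_singleton, tt_mul hb h.gd hq hpd,
      ← Ideal.span_singleton_mul_span_singleton, tt_mul hb h.gd hp hdd,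
      ← Ideal.span_singleton_mul_span_singleton, tt_mul hb h.gd hδ hδ1, map_add, map_add, map_add]
    have k3 : Ez F = gpi I (tt h.gd (Ideal.span {q})) + -gpi I (tt h.gd (Ideal.span {p})) +
        gpi I (tt h.gd (Ideal.span {δ})) + gpi I (tt h.gd (Ideal.span {δ1})) := by
      have k4 : P - gpi I (tt h.gd (Ideal.span {δ})) - gpi I (tt h.gd (Ideal.span {δ1})) + Ez F -
          (P - gpi I (tt h.gd (Ideal.span {δ})) - gpi I (tt h.gd (Ideal.span {δ1}))) =
          P + gpi I (tt h.gd (Ideal.span {q})) -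
          gpi I (tt h.gd (Ideal.span {p})) -
          (P - gpi I (tt h.gd (Ideal.span {δ})) - gpi I (tt h.gd (Ideal.span {δ1}))) := by
        rw [k1]
      calc Ez F = P - gpi I (tt h.gd (Ideal.span {δ})) - gpi I (tt h.gd (Ideal.span {δ1})) +
            Ez F - (P - gpi I (tt h.gd (Ideal.span {δ})) -
              gpi I (tt h.gd (Ideal.span {δ1}))) := by abel
        _ = _ := k4
        _ = _ := by abel
    rw [k3, g2 p hp]
    abel
  -- the norm
  refine tt_one hb hS hτ h hI (δ := q * (p * (δ * δ1))) ?_ k2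
  have m4 := congrArg Ideal.absNorm e1
  rw [map_mul, map_mul, map_prod, map_prod] at m4
  rw [← Ideal.span_singleton_mul_span_singleton, ← Ideal.span_singleton_mul_span_singleton,
    ← Ideal.span_singleton_mul_span_singleton, map_mul, map_mul, map_mul]
  exact tone_mod hp m4 m1 m2 m3

end Pool.Agent.Work.MP_8efaaa_nt.X5
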