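import Mathlib
import Pool.Agent.Work.MP_8efaaa_nt.W5.CTw

/-!
# X5/HSys (S-M): half systems of an involution

PROOF. As `half_sys` (W5/CTw.lean): `e : J ≃ Fin (card J)`, `H = {j | e j < e (f j)}`; `univ` is the disjoint union of the fixed points, `H` and `H.image f`.
-/

set_option autoImplicit false

namespace Pool.Agent.Work.MP_8efaaa_nt.X5

theorem half_sysF {J : Type*} [Fintype J] [DecidableEq J] (f : J → J) (hf : ∀ j, f (f j) = j) :
    ∃ H : Finset J, Fintype.card J = 2 * H.card + (Finset.univ.filter fun j => f j = j).card ∧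
      (∀ j ∈ H, f j ≠ j) ∧ (∀ j ∈ H, f j ∉ H) ∧
      (∀ {M : Type} [AddCommMonoid M] (g : J → M),
        ∑ j, g j = ∑ j ∈ Finset.univ.filter (fun j => f j = j), g j +
          ∑ j ∈ H, (g j + g (f j))) ∧
      ∀ (g : J → ℕ), ∏ j, g j = (∏ j ∈ Finset.univ.filter (fun j => f j = j), g j) *
          ∏ j ∈ H, (g j * g (f j)) := by
  classical
  let e : J ≃ Fin (Fintype.card J) := Fintype.equivFin J
  have hinj : Function.Injective f := Function.Involutive.injective hf
  let H : Finset J := Finset.univ.filter fun j => e j < e (f j)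
  have hmem : ∀ j, j ∈ H ↔ e j < e (f j) := by
    intro j
    simp [H]
  have hH : ∀ j ∈ H, f j ∉ H := by
    intro j hj hj'
    rw [hmem] at hj hj'
    rw [hf] at hj'
    exact lt_asymm hj hj'
  have hne : ∀ j ∈ H, f j ≠ j := by
    intro j hj h
    rw [hmem, h] at hj
    exact lt_irrefl _ hj
  have hdisj : Disjoint H (H.image f) := by
    rw [Finset.disjoint_left]
    intro j hj hj'
    obtain ⟨k, hk, rfl⟩ := Finset.mem_image.1 hj'
    exact hH k hk hj
  have hdisj2 : Disjoint (Finset.univ.filter fun j => f j = j) (H ∪ H.image f) := by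
    rw [Finset.disjoint_left]
    intro j hj hj'
    rw [Finset.mem_filter] at hj
    rcases Finset.mem_union.1 hj' with h | h
    · exact hne j h hj.2
    · obtain ⟨k, hk, rfl⟩ := Finset.mem_image.1 h
      rw [hf] at hj
      exact hne k hk hj.2.symm
  have hu : (Finset.univ : Finset J) =
      (Finset.univ.filter fun j => f j = j) ∪ (H ∪ H.image f) := by
    symm
    rw [Finset.eq_univ_iff_forall]
    intro j
    rw [Finset.mem_union, Finset.mem_union, Finset.mem_image, Finset.mem_filter]
    by_cases hj : f j = j
    · exact Or.inl ⟨Finset.mem_univ _, hj⟩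
    · have h1 : e j ≠ e (f j) := fun h => hj (e.injective h).symm
      rcases lt_or_gt_of_ne h1 with h2 | h2
      · exact Or.inr (Or.inl ((hmem j).2 h2))
      · refine Or.inr (Or.inr ⟨f j, (hmem _).2 ?_, hf j⟩)
        rw [hf]
        exact h2
  refine ⟨H, ?_, hne, hH, ?_, ?_⟩
  · calc Fintype.card J = (Finset.univ : Finset J).card := Finset.card_univ.symm
      _ = ((Finset.univ.filter fun j => f j = j) ∪ (H ∪ H.image f)).card := congrArg _ hu
      _ = _ := by
        rw [Finset.card_union_of_disjoint hdisj2, Finset.card_union_of_disjoint hdisj,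
          Finset.card_image_of_injective _ hinj]
        ring
  · intro M _ g
    calc ∑ j, g j = ∑ j ∈ (Finset.univ.filter fun j => f j = j) ∪ (H ∪ H.image f), g j :=
          congrArg (fun T => Finset.sum T g) hu
      _ = _ := by
        rw [Finset.sum_union hdisj2, Finset.sum_union hdisj,
          Finset.sum_image (fun x _ y _ h => hinj h), Finset.sum_add_distrib]
  · intro g
    calc ∏ j, g j = ∏ j ∈ (Finset.univ.filter fun j => f j = j) ∪ (H ∪ H.image f), g j :=
          congrArg (fun T => Finset.prod T g) hu
      _ = _ := by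
        rw [Finset.prod_union hdisj2, Finset.prod_union hdisj,
          Finset.prod_image (fun x _ y _ h => hinj h), Finset.prod_mul_distrib]

end Pool.Agent.Work.MP_8efaaa_nt.X5
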