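import Mathlib
import Pool.Agent.Work.MP_8efaaa_nt.W5.Defs
import Pool.Agent.Work.MP_8efaaa_nt.W5.TFr
import Pool.Agent.Work.MP_8efaaa_nt.W5.GTy
import Pool.Agent.Work.MP_8efaaa_nt.W5.GQ
import Pool.Agent.Work.MP_8efaaa_nt.X5.HSys

/-!
# X5/TotQ (M-L): the sum at a prime with four fixed classes

PROOF. As `at_q` (W5/GQ.lean), but `f C = g * C⁻¹` (`g = kl (cj m * b) = (kl c)^2`) has exactly the four fixed points `x0 = kl c`, `x0 k`, `x1 = kl (u * c) = kl u * kl c`, `x1 k`, `k = kl (rI S q)` (`k^2 = 1`: `Rf.rI_sq`): `f C = C` iff `(C x0⁻¹)^2 = 1` iff `C x0⁻¹ ∈ {1, k, kl u, kl u * k}` (`hk2` for `r (C x0⁻¹)`),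
all different by `hk1`, `hk3`, `hk4` (`kl u ^ 2 = 1` is `hu2`). `half_sysF` gives `H`, `card S0 = 2 card H + 4`. `b'`: `c`, `rI S q * c`, `u * c`, `rI S q * (u * c)` at the fixed points, `r C` on `H`, `cj m * b * cj (r (f C))` on `f H`.
`a_y` (W5/GTy): `A (cj m * b * cj c') = A c' + gpi I (tt δ')` for `c' = c, δ' = δ` and `c' = u * c, δ' = δ1`, and `star`: `2 A c' = I T - gpi I (tt δ') - (gal ι (A c') - A c')`. With `hsh0`, `hsh1`, modulo `E1 W`: sum `= (card H + 2) • I T - gpi I (tt δ) - gpi I (tt δ1) + (P0 + P1)`, `P0 + P1 = Ez`. `card H + 2 = card S0 / 2`.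
The difference of both sides is in `E1 W` and killed by `4` (`4 Ez = 0`: `hI.gmod.two_T`), so it is zero (`four_tors`).
Norms: `n (q n) (N u n) (q N u n) ∏_H (N r) (M N r) = q^2 n^4 (N u)^2 M^(card H) (∏ N r)^2 = 1 (mod 8)`: everything odd, `card H = h / 4 - 2` even.
-/

set_option autoImplicit false

namespace Pool.Agent.Work.MP_8efaaa_nt.X5

open NumberField Pool.Agent.Work.MP_8efaaa_nt.R Pool.Agent.Work.MP_8efaaa_nt.N5
  Pool.Agent.Work.MP_8efaaa_nt.W5
open scoped Classical nonZeroDivisors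

private theorem q4_sq8 {x : ℕ} (hx : Odd x) : x * x ≡ 1 [MOD 8] := by
  have h1 : x % 8 = 1 ∨ x % 8 = 3 ∨ x % 8 = 5 ∨ x % 8 = 7 := by
    have := Nat.odd_iff.1 hx
    omega
  unfold Nat.ModEq
  rw [Nat.mul_mod]
  rcases h1 with h | h | h | h <;> rw [h]

private theorem q4_prod {J : Type*} (H : Finset J) (M : ℕ) (hM : Odd M) (x : J → ℕ)
    (hx : ∀ j ∈ H, Odd (x j)) (hH : Even H.card) :
    ∏ j ∈ H, (x j * (M * x j)) ≡ 1 [MOD 8] := by
  have e1 : ∏ j ∈ H, (x j * (M * x j)) = M ^ H.card * ((∏ j ∈ H, x j) * ∏ j ∈ H, x j) := by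
    rw [← Finset.prod_const, ← Finset.prod_mul_distrib, ← Finset.prod_mul_distrib]
    exact Finset.prod_congr rfl fun j _ => by ring
  have e2 : Odd (∏ j ∈ H, x j) :=
    Finset.prod_induction _ Odd (fun a b ha hb => ha.mul hb) odd_one hx
  obtain ⟨t, ht⟩ := hH
  have e3 : M ^ H.card ≡ 1 [MOD 8] := by
    rw [ht, ← two_mul, pow_mul, pow_two]
    have h1 := (q4_sq8 hM).pow t
    rwa [one_pow] at h1
  rw [e1]
  have h3 := e3.mul (q4_sq8 e2)
  rwa [mul_one] at h3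

theorem at_q4 {K : Type*} {F : Type} [Field K] [NumberField K] [Field F] [NumberField F]
    [Algebra K F] [FiniteDimensional K F] [IsGalois K F] {a d : ℕ} {s : K} (hb : Base5 K a s)
    (hnc : ¬ IsCongruent a) {S : 𝓞 K} (hS : algebraMap (𝓞 K) K S = s) {τ : 𝓞 K ≃+* 𝓞 K}
    (hτ : τ S = -S) {ζ w : F} {X Y V U : Ideal (𝓞 K) → F} {κ : F ≃ₐ[ℚ] F}
    (h : IDat K F a d s S τ ζ w X Y V U κ)
    {I : (cQ F).Point →+ (cQ F).Point} (hI : CMI (ζ ^ 2) I) {T : (cQ F).Point}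
    (hT4 : (4 : ℤ) • T = 0)
    (hT : ∀ c, Ideal.absNorm c % 4 = 1 →
      gpi I (PP h.gd (mI S a * c)) = I (gpi I (PP h.gd c)) + T)
    {ι : F ≃ₐ[ℚ] F} (hz : ι ζ = ζ) {b : Ideal (𝓞 K)}
    (hb7 : Ideal.absNorm b % 8 = 7)
    (hi1 : ∀ c, Ideal.absNorm c % 4 = 1 → gal ι (PP h.gd c) = I (PP h.gd (b * cj τ c)))
    (S0 : Subgroup (ClassGroup (𝓞 K)))
    (h0 : 2 * Nat.card S0 = Fintype.card (ClassGroup (𝓞 K)))
    (h8 : 8 ∣ Fintype.card (ClassGroup (𝓞 K)))
    (h1 : ∀ b : Ideal (𝓞 K), Ideal.absNorm b % 4 = 1 → kl b ∈ S0)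
    (r : ClassGroup (𝓞 K) → Ideal (𝓞 K)) (hr1 : ∀ C ∈ S0, Ideal.absNorm (r C) % 4 = 1)
    (hr2 : ∀ C ∈ S0, kl (r C) = C) {q : ℕ} (hqa : q ∣ a) (hq8 : q % 8 = 5)
    {u : Ideal (𝓞 K)} (hu : Ideal.absNorm u % 4 = 1) (hu2 : kl u ^ 2 = 1)
    (hk1 : kl (Rf.rI S q) ≠ 1) (hk3 : kl u ≠ 1) (hk4 : kl u ≠ kl (Rf.rI S q))
    (hk2 : ∀ c : Ideal (𝓞 K), Ideal.absNorm c % 4 = 1 → kl c ^ 2 = 1 →
      kl c = 1 ∨ kl c = kl (Rf.rI S q) ∨ kl c = kl u ∨ kl c = kl u * kl (Rf.rI S q))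
    {c : Ideal (𝓞 K)} (hc1 : Ideal.absNorm c % 4 = 1)
    (hcg : kl c ^ 2 = kl (cj τ (mI S a) * b)) {δ δ1 : 𝓞 K}
    (hδ : Ideal.span {δ} = cj τ (mI S a) * b * cj τ c * cj τ c)
    (hδ1 : Ideal.span {δ1} = cj τ (mI S a) * b * cj τ (u * c) * cj τ (u * c))
    {Γ : Type} [LinearOrderedCommGroupWithZero Γ] (W : Valuation F Γ) (hW2 : W 2 = 1)
    (hW : ∀ x, W (ι x) = W x) (hW' : ∀ x, W x ≤ 1 → W (ι x - x) < 1) {P0 P1 : (cQ F).Point}
    (hP : P0 + P1 = Ez F)
    (hsh0 : gpi I (PP h.gd (Rf.rI S q * c)) - gpi I (PP h.gd c) - P0 ∈ E1 W)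
    (hsh1 : gpi I (PP h.gd (Rf.rI S q * (u * c))) - gpi I (PP h.gd (u * c)) - P1 ∈ E1 W) :
    ∃ b' : S0 → Ideal (𝓞 K), (∀ C, Ideal.absNorm (b' C) % 4 = 1) ∧ (∀ C, kl (b' C) = C) ∧
      (∏ C, Ideal.absNorm (b' C)) % 8 = 1 ∧
      gpi I (∑ C, PP h.gd (b' C)) =
        ((Nat.card S0 / 2 : ℕ) : ℤ) • I T - gpi I (tt h.gd (Ideal.span {δ})) -
          gpi I (tt h.gd (Ideal.span {δ1})) + Ez F := by
  have ha5 := hb.mod
  -- the points
  set A : Ideal (𝓞 K) → (cQ F).Point := fun x => gpi I (PP h.gd x) with hA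
  have hstar := fun (x : Ideal (𝓞 K)) (hx : Ideal.absNorm x % 4 = 1) =>
    star hb hS hτ h hI hT hz hb7 hi1 hx
  -- the classes of `q` and `u`
  have hqn : Ideal.absNorm (Rf.rI S q) = q := Rf.rI_norm hb hS hqa
  have hq4 : Ideal.absNorm (Rf.rI S q) % 4 = 1 := by
    rw [hqn]
    omega
  have hqo : OddI (Rf.rI S q) := oddI_of_one hq4
  have hco : OddI c := oddI_of_one hc1
  have huo : OddI u := oddI_of_one hu
  have huc1 : Ideal.absNorm (u * c) % 4 = 1 := by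
    rw [map_mul, Nat.mul_mod, hu, hc1]
  have huco : OddI (u * c) := oddI_of_one huc1
  have hkk : kl (Rf.rI S q) * kl (Rf.rI S q) = 1 := by
    rw [← kl_mul hqo hqo, kl_eq_one (oddI_mul'.2 ⟨hqo, hqo⟩)]
    exact ⟨(q : 𝓞 K), Rf.rI_sq hb hS hqa⟩
  set G0 : S0 := ⟨kl c, h1 c hc1⟩ with hG0
  set k0 : S0 := ⟨kl (Rf.rI S q), h1 _ hq4⟩ with hk0
  set u0 : S0 := ⟨kl u, h1 _ hu⟩ with hu0
  have hk02 : k0 * k0 = 1 := Subtype.ext hkk
  have hu02 : u0 * u0 = 1 := Subtype.ext (by rw [← pow_two] at *; exact hu2)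
  have hk01 : k0 ≠ 1 := fun e => hk1 (congrArg Subtype.val e)
  have hu01 : u0 ≠ 1 := fun e => hk3 (congrArg Subtype.val e)
  have huk : u0 ≠ k0 := fun e => hk4 (congrArg Subtype.val e)
  have huk1 : u0 * k0 ≠ 1 := by
    intro e
    apply huk
    have e1 : u0 * k0 * k0 = 1 * k0 := by rw [e]
    rwa [mul_assoc, hk02, mul_one, one_mul] at e1
  obtain ⟨x1, hx1⟩ : ∃ x1 : S0, x1 = G0 * k0 := ⟨_, rfl⟩
  obtain ⟨x2, hx2⟩ : ∃ x2 : S0, x2 = G0 * u0 := ⟨_, rfl⟩
  obtain ⟨x3, hx3⟩ : ∃ x3 : S0, x3 = G0 * (u0 * k0) := ⟨_, rfl⟩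
  have h01 : G0 ≠ x1 := fun e => hk01 (mul_eq_left.1 (e.trans hx1).symm)
  have h02 : G0 ≠ x2 := fun e => hu01 (mul_eq_left.1 (e.trans hx2).symm)
  have h03 : G0 ≠ x3 := fun e => huk1 (mul_eq_left.1 (e.trans hx3).symm)
  have h12 : x1 ≠ x2 := by
    rw [hx1, hx2]
    exact fun e => huk (mul_left_cancel e).symm
  have h13 : x1 ≠ x3 := by
    rw [hx1, hx3]
    intro e
    have e1 := mul_left_cancel e
    exact hu01 (mul_eq_right.1 e1.symm)
  have h23 : x2 ≠ x3 := by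
    rw [hx2, hx3]
    intro e
    have e1 := mul_left_cancel e
    exact hk01 (mul_eq_left.1 e1.symm)
  set f : S0 → S0 := fun C => G0 ^ 2 * C⁻¹ with hf
  have hff : ∀ C, f (f C) = C := by
    intro C
    show G0 ^ 2 * (G0 ^ 2 * C⁻¹)⁻¹ = C
    rw [mul_inv, inv_inv, mul_inv_cancel_left]
  have hfv : ∀ C : S0, ((f C : S0) : ClassGroup (𝓞 K)) =
      kl (cj τ (mI S a) * b) * (C : ClassGroup (𝓞 K))⁻¹ := by
    intro C
    show (kl c) ^ 2 * (C : ClassGroup (𝓞 K))⁻¹ = _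
    rw [hcg]
  have hfw : ∀ z : S0, z * z = 1 → f (G0 * z) = G0 * z := by
    intro z hz1
    show G0 ^ 2 * (G0 * z)⁻¹ = G0 * z
    rw [mul_inv_eq_iff_eq_mul]
    have : G0 * z * (G0 * z) = G0 ^ 2 * (z * z) := by
      rw [pow_two]
      exact mul_mul_mul_comm _ _ _ _
    rw [this, hz1, mul_one]
  have hukk : u0 * k0 * (u0 * k0) = 1 := by
    rw [mul_mul_mul_comm, hu02, hk02, mul_one]
  have hfix : ∀ C, f C = C ↔ C = G0 ∨ C = x1 ∨ C = x2 ∨ C = x3 := by
    intro C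
    constructor
    · intro e
      have e1 : (C * G0⁻¹) ^ 2 = 1 := by
        have e2 : G0 ^ 2 * C⁻¹ = C := e
        have e3 : G0 ^ 2 = C ^ 2 := by
          rw [pow_two C]
          exact mul_inv_eq_iff_eq_mul.1 e2
        rw [mul_pow, inv_pow, e3, mul_inv_cancel]
      have e2 : kl (r ((C * G0⁻¹ : S0) : ClassGroup (𝓞 K))) =
          ((C * G0⁻¹ : S0) : ClassGroup (𝓞 K)) :=
        hr2 _ (C * G0⁻¹ : S0).2
      have e3 := hk2 (r ((C * G0⁻¹ : S0) : ClassGroup (𝓞 K))) (hr1 _ (C * G0⁻¹ : S0).2) (by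
        rw [e2]
        exact congrArg Subtype.val e1)
      rw [e2] at e3
      rcases e3 with e3 | e3 | e3 | e3
      · left
        have e4 : C * G0⁻¹ = 1 := Subtype.ext e3
        exact mul_inv_eq_one.1 e4
      · right; left
        have e4 : C * G0⁻¹ = k0 := Subtype.ext e3
        rw [mul_inv_eq_iff_eq_mul] at e4
        rw [e4, hx1, mul_comm]
      · right; right; left
        have e4 : C * G0⁻¹ = u0 := Subtype.ext e3
        rw [mul_inv_eq_iff_eq_mul] at e4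
        rw [e4, hx2, mul_comm]
      · right; right; right
        have e4 : C * G0⁻¹ = u0 * k0 := Subtype.ext e3
        rw [mul_inv_eq_iff_eq_mul] at e4
        rw [e4, hx3, mul_comm]
    · rintro (rfl | rfl | rfl | rfl)
      · show G0 ^ 2 * G0⁻¹ = G0
        rw [pow_two, mul_inv_cancel_right]
      · rw [hx1]
        exact hfw _ hk02
      · rw [hx2]
        exact hfw _ hu02
      · rw [hx3]
        exact hfw _ hukk
  obtain ⟨H, hH0, hH1, hH4, hH5, hH6⟩ := half_sysF f hff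
  have hfil : (Finset.univ.filter fun j => f j = j) = {G0, x1, x2, x3} := by
    ext C
    simp only [Finset.mem_filter, Finset.mem_univ, true_and, Finset.mem_insert,
      Finset.mem_singleton]
    exact hfix C
  have n01 : G0 ∉ ({x1, x2, x3} : Finset S0) := by
    simp only [Finset.mem_insert, Finset.mem_singleton, not_or]
    exact ⟨h01, h02, h03⟩
  have n12 : x1 ∉ ({x2, x3} : Finset S0) := by
    simp only [Finset.mem_insert, Finset.mem_singleton, not_or]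
    exact ⟨h12, h13⟩
  have n23 : x2 ∉ ({x3} : Finset S0) := by
    simp only [Finset.mem_singleton]
    exact h23
  have hcard4 : ({G0, x1, x2, x3} : Finset S0).card = 4 := by
    rw [Finset.card_insert_of_notMem n01, Finset.card_insert_of_notMem n12,
      Finset.card_insert_of_notMem n23, Finset.card_singleton]
  have hsum4 : ∀ {M : Type} [AddCommMonoid M] (g : S0 → M),
      ∑ j ∈ ({G0, x1, x2, x3} : Finset S0), g j = g G0 + (g x1 + (g x2 + g x3)) := by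
    intro M _ g
    rw [Finset.sum_insert n01, Finset.sum_insert n12, Finset.sum_insert n23,
      Finset.sum_singleton]
  have hprod4 : ∀ (g : S0 → ℕ),
      ∏ j ∈ ({G0, x1, x2, x3} : Finset S0), g j = g G0 * (g x1 * (g x2 * g x3)) := by
    intro g
    rw [Finset.prod_insert n01, Finset.prod_insert n12, Finset.prod_insert n23,
      Finset.prod_singleton]
  rw [hfil, hcard4] at hH0
  -- the ideals
  set b' : S0 → Ideal (𝓞 K) := fun C =>
    if C = G0 then c else if C = x1 then Rf.rI S q * c else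
      if C = x2 then u * c else if C = x3 then Rf.rI S q * (u * c) else
        if C ∈ H then r C else cj τ (mI S a) * b * cj τ (r (f C)) with hb'
  have v0 : b' G0 = c := by
    simp only [hb', if_true]
  have v1 : b' x1 = Rf.rI S q * c := by
    simp only [hb', if_neg h01.symm, if_true]
  have v2 : b' x2 = u * c := by
    simp only [hb', if_neg h02.symm, if_neg h12.symm, if_true]
  have v3 : b' x3 = Rf.rI S q * (u * c) := by
    simp only [hb', if_neg h03.symm, if_neg h13.symm, if_neg h23.symm, if_true]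
  have vv : ∀ j, f j ≠ j → b' j = if j ∈ H then r j else cj τ (mI S a) * b * cj τ (r (f j)) := by
    intro j hj
    have m := mt (hfix j).2 hj
    simp only [not_or] at m
    simp only [hb', if_neg m.1, if_neg m.2.1, if_neg m.2.2.1, if_neg m.2.2.2]
  have v4 : ∀ j ∈ H, b' j = r j := by
    intro j hj
    rw [vv j (hH1 j hj), if_pos hj]
  have v5 : ∀ j ∈ H, b' (f j) = cj τ (mI S a) * b * cj τ (r j) := by
    intro j hj
    have e1 : f (f j) ≠ f j := by
      rw [hff]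
      exact (hH1 j hj).symm
    rw [vv (f j) e1, if_neg (hH4 j hj), hff]
  have hN : ∀ C, Ideal.absNorm (b' C) % 4 = 1 := by
    intro C
    by_cases e : f C = C
    · rcases (hfix C).1 e with e0 | e0 | e0 | e0
      · rw [e0, v0]
        exact hc1
      · rw [e0, v1, map_mul, Nat.mul_mod, hq4, hc1]
      · rw [e0, v2]
        exact huc1
      · rw [e0, v3, map_mul, Nat.mul_mod, hq4, huc1]
    · rw [vv C e]
      by_cases e2 : C ∈ H
      · rw [if_pos e2]
        exact hr1 _ C.2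
      · rw [if_neg e2]
        exact (hstar _ (hr1 _ (f C).2)).1
  have hkl : ∀ C, kl (b' C) = C := by
    intro C
    by_cases e : f C = C
    · rcases (hfix C).1 e with e0 | e0 | e0 | e0
      · rw [e0, v0]
      · rw [e0, v1, kl_mul hqo hco, mul_comm, hx1]
        rfl
      · rw [e0, v2, kl_mul huo hco, mul_comm, hx2]
        rfl
      · rw [e0, v3, kl_mul hqo huco, kl_mul huo hco, hx3]
        show kl (Rf.rI S q) * (kl u * kl c) = kl c * (kl u * kl (Rf.rI S q))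
        rw [mul_comm, mul_comm (kl u) (kl c), mul_assoc]
    · rw [vv C e]
      by_cases e2 : C ∈ H
      · rw [if_pos e2]
        exact hr2 _ C.2
      · rw [if_neg e2, (hstar _ (hr1 _ (f C).2)).2.1, hr2 _ (f C).2, ← hfv, hff]
  -- norms
  have hNat : Nat.card S0 = Fintype.card S0 := Nat.card_eq_fintype_card
  have hHc : Nat.card S0 / 2 = H.card + 2 := by omega
  have hHe : Even H.card := by
    rw [Nat.even_iff]
    omega
  have hM4 := (hstar c hc1).1
  have hcj := norm_cj hb hS hτ c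
  have hcju := norm_cj hb hS hτ (u * c)
  obtain ⟨M, hM⟩ : ∃ M : ℕ, M = Ideal.absNorm (cj τ (mI S a) * b) := ⟨_, rfl⟩
  obtain ⟨n, hn⟩ : ∃ n : ℕ, n = Ideal.absNorm c := ⟨_, rfl⟩
  obtain ⟨m, hm⟩ : ∃ m : ℕ, m = Ideal.absNorm u := ⟨_, rfl⟩
  have hno : Odd n := Nat.odd_iff.2 (by omega)
  have hmo : Odd m := Nat.odd_iff.2 (by omega)
  have hqodd : Odd q := Nat.odd_iff.2 (by omega)
  rw [map_mul, hcj.1, ← hM, ← hn] at hM4
  have hMo : Odd M := by
    have h2 : Odd (M * n) := Nat.odd_iff.2 (by omega)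
    exact (Nat.odd_mul.1 h2).1
  have hδn : Ideal.absNorm (Ideal.span {δ}) = M * n * n := by
    rw [hδ, map_mul, map_mul, hcj.1, ← hM, ← hn]
  have hδo : OddI (Ideal.span {δ}) := by
    unfold OddI
    rw [hδn]
    exact (hMo.mul hno).mul hno
  have hδ1n : Ideal.absNorm (Ideal.span {δ1}) = M * (m * n) * (m * n) := by
    rw [hδ1, map_mul, map_mul, hcju.1, ← hM, map_mul, ← hn, ← hm]
  have hδ1o : OddI (Ideal.span {δ1}) := by
    unfold OddI
    rw [hδ1n]
    exact (hMo.mul (hmo.mul hno)).mul (hmo.mul hno)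
  have hprod : (∏ C, Ideal.absNorm (b' C)) ≡ 1 [MOD 8] := by
    have e1 := hH6 (fun C => Ideal.absNorm (b' C))
    rw [hfil, hprod4, v0, v1, v2, v3] at e1
    have e2 : ∏ j ∈ H, (Ideal.absNorm (b' j) * Ideal.absNorm (b' (f j))) =
        ∏ j ∈ H, (Ideal.absNorm (r j) * (M * Ideal.absNorm (r j))) := by
      refine Finset.prod_congr rfl fun j hj => ?_
      rw [v4 j hj, v5 j hj, map_mul (Ideal.absNorm) (cj τ (mI S a) * b),
        (norm_cj hb hS hτ (r j)).1, ← hM]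
    have e3 := q4_prod H M hMo (fun j => Ideal.absNorm (r (j : ClassGroup (𝓞 K))))
      (fun j _ => oddI_of_one (hr1 _ j.2)) hHe
    have e4 : Ideal.absNorm c * (Ideal.absNorm (Rf.rI S q * c) * (Ideal.absNorm (u * c) *
        Ideal.absNorm (Rf.rI S q * (u * c)))) =
        (q * n * n * m) * (q * n * n * m) := by
      rw [map_mul (Ideal.absNorm) (Rf.rI S q) c, map_mul (Ideal.absNorm) (Rf.rI S q) (u * c),
        map_mul (Ideal.absNorm) u c, hqn, ← hn, ← hm]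
      ring
    have e5 := q4_sq8 (((hqodd.mul hno).mul hno).mul hmo)
    rw [e2, e4] at e1
    rw [e1]
    have e6 := e5.mul e3
    rwa [mul_one] at e6
  refine ⟨b', hN, hkl, hprod, ?_⟩
  -- the sum
  have hsum : gpi I (∑ C, PP h.gd (b' C)) =
      A c + (A (Rf.rI S q * c) + (A (u * c) + A (Rf.rI S q * (u * c)))) +
        ∑ j ∈ H, (A (r j) + A (cj τ (mI S a) * b * cj τ (r j))) := by
    rw [map_sum]
    have e1 := hH5 (fun C => gpi I (PP h.gd (b' C)))
    rw [hfil, hsum4] at e1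
    rw [e1, v0, v1, v2, v3]
    congr 1
    refine Finset.sum_congr rfl fun j hj => ?_
    rw [v4 j hj, v5 j hj]
  have hAy := a_y hb hS hτ h hI hb7 hc1 hδ
  have hAy1 := a_y hb hS hτ h hI hb7 huc1 hδ1
  have hstc : gal ι (A c) + (A c + gpi I (tt h.gd (Ideal.span {δ}))) = I T := by
    have e1 := (hstar c hc1).2.2
    rw [hAy] at e1
    exact e1
  have hstc1 : gal ι (A (u * c)) + (A (u * c) + gpi I (tt h.gd (Ideal.span {δ1}))) = I T := by
    have e1 := (hstar (u * c) huc1).2.2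
    rw [hAy1] at e1
    exact e1
  have hgal : ∀ R : (cQ F).Point, gal ι R - R ∈ E1 W := fun R => gal_sub_mem hW2 hW hW' R
  have hD : gpi I (∑ C, PP h.gd (b' C)) - (((Nat.card S0 / 2 : ℕ) : ℤ) • I T -
      gpi I (tt h.gd (Ideal.span {δ})) - gpi I (tt h.gd (Ideal.span {δ1})) + Ez F) ∈ E1 W := by
    have e1 : ∑ j ∈ H, (A (r j) + A (cj τ (mI S a) * b * cj τ (r j))) =
        (H.card : ℤ) • I T - ∑ j ∈ H, (gal ι (A (r j)) - A (r j)) := by
      rw [natCast_zsmul, ← Finset.sum_const, ← Finset.sum_sub_distrib]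
      refine Finset.sum_congr rfl fun j _ => ?_
      rw [← (hstar _ (hr1 _ j.2)).2.2]
      abel
    have e2 : ((Nat.card S0 / 2 : ℕ) : ℤ) = (H.card : ℤ) + 1 + 1 := by
      rw [hHc]
      push_cast
      ring
    have e3 : gpi I (∑ C, PP h.gd (b' C)) - (((Nat.card S0 / 2 : ℕ) : ℤ) • I T -
        gpi I (tt h.gd (Ideal.span {δ})) - gpi I (tt h.gd (Ideal.span {δ1})) + Ez F) =
        (A (Rf.rI S q * c) - A c - P0) + (A (Rf.rI S q * (u * c)) - A (u * c) - P1) -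
          (gal ι (A c) - A c) - (gal ι (A (u * c)) - A (u * c)) -
          ∑ j ∈ H, (gal ι (A (r j)) - A (r j)) := by
      have e4 : ((H.card : ℤ) + 1 + 1) • I T = (H.card : ℤ) • I T +
          (gal ι (A c) + (A c + gpi I (tt h.gd (Ideal.span {δ})))) +
          (gal ι (A (u * c)) + (A (u * c) + gpi I (tt h.gd (Ideal.span {δ1})))) := by
        rw [hstc, hstc1, add_smul, add_smul, one_smul]
      rw [hsum, e1, e2, e4, ← hP]
      abel
    rw [e3]
    refine (E1 W).sub_mem ((E1 W).sub_mem ((E1 W).sub_mem ((E1 W).add_mem hsh0 hsh1)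
      (hgal _)) (hgal _)) ?_
    exact (E1 W).sum_mem fun j _ => hgal _
  -- four times the difference
  have f1 : (4 : ℤ) • ∑ C, PP h.gd (b' C) = 0 := by
    have e1 := half_tor hb h.gd hnc hI S0 h0 h1 b' hN hkl
    rw [hI.gmod.gpi_four, neg_eq_zero] at e1
    exact e1
  have f2 : ∀ {ε : 𝓞 K}, OddI (Ideal.span {ε}) →
      (4 : ℤ) • gpi I (tt h.gd (Ideal.span {ε})) = 0 := by
    intro ε hε
    have e1 := hI.gmod.gpi_four (gpi I (tt h.gd (Ideal.span {ε})))
    have e2 : (gpi I)^[4] (gpi I (tt h.gd (Ideal.span {ε}))) =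
        (gpi I)^[2] ((gpi I)^[3] (tt h.gd (Ideal.span {ε}))) := by
      rw [← Function.iterate_succ_apply, ← Function.iterate_add_apply]
    rw [e2, three_tt h.gd hI hε, iter_zero] at e1
    exact (neg_eq_zero.1 e1.symm)
  have f3 : (4 : ℤ) • Ez F = 0 := by
    have e1 : Ez F + Ez F = 0 := by
      have := hI.gmod.two_T
      rw [two_zsmul] at this
      exact this
    have e2 : (4 : ℤ) • Ez F = (Ez F + Ez F) + (Ez F + Ez F) := by
      rw [show (4 : ℤ) = 1 + 1 + (1 + 1) by norm_num]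
      simp only [add_smul, one_smul]
    rw [e2, e1, add_zero]
  have f4 : (4 : ℤ) • (gpi I (∑ C, PP h.gd (b' C)) - (((Nat.card S0 / 2 : ℕ) : ℤ) • I T -
      gpi I (tt h.gd (Ideal.span {δ})) - gpi I (tt h.gd (Ideal.span {δ1})) + Ez F)) = 0 := by
    have g1 : (4 : ℤ) • gpi I (∑ C, PP h.gd (b' C)) = 0 := by
      rw [← map_zsmul, f1, map_zero]
    have g2 : (4 : ℤ) • (((Nat.card S0 / 2 : ℕ) : ℤ) • I T) = 0 := by
      rw [smul_smul, mul_comm, ← smul_smul, ← map_zsmul, hT4, map_zero, smul_zero]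
    rw [smul_sub, smul_add, smul_sub, smul_sub, f2 hδo, f2 hδ1o, f3, g1, g2]
    abel
  exact sub_eq_zero.1 (four_tors hD f4)

end Pool.Agent.Work.MP_8efaaa_nt.X5
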