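import Mathlib
import Pool.Agent.Work.MP_8efaaa_nt.W5.Defs
import Pool.Agent.Work.MP_8efaaa_nt.W5.TFr
import Pool.Agent.Work.MP_8efaaa_nt.W5.GQ
import Pool.Agent.Work.MP_8efaaa_nt.X5.HSys

/-!
# X5/TotR (M): the sum at a prime without fixed classes

PROOF. Simplify the proof of `at_q` (W5/GQ.lean). `A c = gpi I (PP c)`, `g = kl (cj m * b) ∈ S0`, `f C := g * C⁻¹` on `S0`, an involution without fixed points (`hng`). `half_sysF` gives `H` with `card S0 = 2 card H`. `b' C := if C ∈ H then r C else cj m * b * cj (r (f C))`. Norms `1 (mod 4)`, `kl (b' C) = C`, and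
`A (cj m * b * cj (r C)) = I T - gal ι (A (r C))`: `star` (W5/TFr). So `gpi I (∑ PP (b' C)) - (card H) • I T = -∑_H (gal ι (A (r C)) - A (r C)) ∈ E1 W` (`gal_sub_mem`), and it is killed by `4` (`half_tor` and `gpi_four`, `4 T = 0`), so it is `0` (`four_tors`). `card H = card S0 / 2`.
Norms: `∏ = ∏_H (N r) (M N r)`, `M = absNorm (cj m * b)` odd, `card H = h / 4` even (`8 ∣ h`): `1 (mod 8)`.
-/

set_option autoImplicit false

namespace Pool.Agent.Work.MP_8efaaa_nt.X5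

open NumberField Pool.Agent.Work.MP_8efaaa_nt.R Pool.Agent.Work.MP_8efaaa_nt.N5
  Pool.Agent.Work.MP_8efaaa_nt.W5
open scoped Classical nonZeroDivisors

private theorem tr_sq8 {x : ℕ} (hx : Odd x) : x * x ≡ 1 [MOD 8] := by
  have h1 : x % 8 = 1 ∨ x % 8 = 3 ∨ x % 8 = 5 ∨ x % 8 = 7 := by
    have := Nat.odd_iff.1 hx
    omega
  unfold Nat.ModEq
  rw [Nat.mul_mod]
  rcases h1 with h | h | h | h <;> rw [h]

private theorem tr_prod {J : Type*} (H : Finset J) (M : ℕ) (hM : Odd M) (x : J → ℕ)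
    (hx : ∀ j ∈ H, Odd (x j)) (hH : Even H.card) :
    ∏ j ∈ H, (x j * (M * x j)) ≡ 1 [MOD 8] := by
  have e1 : ∏ j ∈ H, (x j * (M * x j)) = M ^ H.card * ((∏ j ∈ H, x j) * ∏ j ∈ H, x j) := by
    rw [← Finset.prod_const, ← Finset.prod_mul_distrib, ← Finset.prod_mul_distrib]
    exact Finset.prod_congr rfl fun j _ => by ring
  have e2 : Odd (∏ j ∈ H, x j) :=
    Finset.prod_induction _ Odd (fun a b ha hb => ha.mul hb) odd_one hx
  obtain ⟨t, ht⟩ := hH
  have e3 : M ^ H.card ≡ 1 [MOD 8] := by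
    rw [ht, ← two_mul, pow_mul, pow_two]
    have h1 := (tr_sq8 hM).pow t
    rwa [one_pow] at h1
  rw [e1]
  have h3 := e3.mul (tr_sq8 e2)
  rwa [mul_one] at h3

theorem at_r {K : Type*} {F : Type} [Field K] [NumberField K] [Field F] [NumberField F]
    [Algebra K F] [FiniteDimensional K F] [IsGalois K F] {a d : ℕ} {s : K} (hb : Base5 K a s)
    (hnc : ¬ IsCongruent a) {S : 𝓞 K} (hS : algebraMap (𝓞 K) K S = s) {τ : 𝓞 K ≃+* 𝓞 K}
    (hτ : τ S = -S) {ζ w : F} {X Y V U : Ideal (𝓞 K) → F} {κ : F ≃ₐ[ℚ] F}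
    (h : IDat K F a d s S τ ζ w X Y V U κ)
    {I : (cQ F).Point →+ (cQ F).Point} (hI : CMI (ζ ^ 2) I) {T : (cQ F).Point}
    (hT4 : (4 : ℤ) • T = 0)
    (hT : ∀ c, Ideal.absNorm c % 4 = 1 →
      gpi I (PP h.gd (mI S a * c)) = I (gpi I (PP h.gd c)) + T)
    {ι : F ≃ₐ[ℚ] F} (hz : ι ζ = ζ) {b : Ideal (𝓞 K)}
    (hb7 : Ideal.absNorm b % 8 = 7)
    (hi1 : ∀ c, Ideal.absNorm c % 4 = 1 → gal ι (PP h.gd c) = I (PP h.gd (b * cj τ c)))
    (S0 : Subgroup (ClassGroup (𝓞 K)))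
    (h0 : 2 * Nat.card S0 = Fintype.card (ClassGroup (𝓞 K)))
    (h8 : 8 ∣ Fintype.card (ClassGroup (𝓞 K)))
    (h1 : ∀ b : Ideal (𝓞 K), Ideal.absNorm b % 4 = 1 → kl b ∈ S0)
    (r : ClassGroup (𝓞 K) → Ideal (𝓞 K)) (hr1 : ∀ C ∈ S0, Ideal.absNorm (r C) % 4 = 1)
    (hr2 : ∀ C ∈ S0, kl (r C) = C)
    (hng : ∀ C ∈ S0, C ^ 2 ≠ kl (cj τ (mI S a) * b))
    {Γ : Type} [LinearOrderedCommGroupWithZero Γ] (W : Valuation F Γ) (hW2 : W 2 = 1)
    (hW : ∀ x, W (ι x) = W x) (hW' : ∀ x, W x ≤ 1 → W (ι x - x) < 1) :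
    ∃ b' : S0 → Ideal (𝓞 K), (∀ C, Ideal.absNorm (b' C) % 4 = 1) ∧ (∀ C, kl (b' C) = C) ∧
      (∏ C, Ideal.absNorm (b' C)) % 8 = 1 ∧
      gpi I (∑ C, PP h.gd (b' C)) = ((Nat.card S0 / 2 : ℕ) : ℤ) • I T := by
  set A : Ideal (𝓞 K) → (cQ F).Point := fun x => gpi I (PP h.gd x) with hA
  have hstar := fun (x : Ideal (𝓞 K)) (hx : Ideal.absNorm x % 4 = 1) =>
    star hb hS hτ h hI hT hz hb7 hi1 hx
  have hn1 : Ideal.absNorm (1 : Ideal (𝓞 K)) % 4 = 1 := by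
    simp
  have hM4 := (hstar 1 hn1).1
  rw [map_mul, (norm_cj hb hS hτ (1 : Ideal (𝓞 K))).1, map_one, mul_one] at hM4
  set M : ℕ := Ideal.absNorm (cj τ (mI S a) * b) with hM
  have hMo : Odd M := Nat.odd_iff.2 (by omega)
  set g0 : S0 := ⟨kl (cj τ (mI S a) * b), h1 _ hM4⟩ with hg0
  set f : S0 → S0 := fun C => g0 * C⁻¹ with hf
  have hff : ∀ C, f (f C) = C := by
    intro C
    show g0 * (g0 * C⁻¹)⁻¹ = C
    rw [mul_inv, inv_inv, mul_inv_cancel_left]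
  have hfv : ∀ C : S0, ((f C : S0) : ClassGroup (𝓞 K)) =
      kl (cj τ (mI S a) * b) * (C : ClassGroup (𝓞 K))⁻¹ := fun C => rfl
  have hfix : ∀ C, f C ≠ C := by
    intro C e
    apply hng _ C.2
    have e2 : g0 * C⁻¹ = C := e
    have e3 : g0 = C * C := mul_inv_eq_iff_eq_mul.1 e2
    have e4 := congrArg Subtype.val e3
    rw [pow_two]
    exact e4.symm
  obtain ⟨H, hH1, hH2, hH3, hH4, hH5⟩ := half_sysF f hff
  have hem : (Finset.univ.filter fun j => f j = j) = ∅ :=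
    Finset.filter_eq_empty_iff.2 fun j _ => hfix j
  rw [hem, Finset.card_empty, add_zero] at hH1
  -- the ideals
  set b' : S0 → Ideal (𝓞 K) := fun C =>
      if C ∈ H then r C else cj τ (mI S a) * b * cj τ (r (f C)) with hb'
  have v2 : ∀ j ∈ H, b' j = r j := by
    intro j hj
    simp only [hb', if_pos hj]
  have v3 : ∀ j ∈ H, b' (f j) = cj τ (mI S a) * b * cj τ (r j) := by
    intro j hj
    simp only [hb', if_neg (hH3 j hj), hff]
  have hN : ∀ C, Ideal.absNorm (b' C) % 4 = 1 := by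
    intro C
    by_cases e2 : C ∈ H
    · rw [v2 C e2]
      exact hr1 _ C.2
    · have e3 : b' C = cj τ (mI S a) * b * cj τ (r (f C)) := by
        simp only [hb', if_neg e2]
      rw [e3]
      exact (hstar _ (hr1 _ (f C).2)).1
  have hkl : ∀ C, kl (b' C) = C := by
    intro C
    by_cases e2 : C ∈ H
    · rw [v2 C e2]
      exact hr2 _ C.2
    · have e3 : b' C = cj τ (mI S a) * b * cj τ (r (f C)) := by
        simp only [hb', if_neg e2]
      rw [e3, (hstar _ (hr1 _ (f C).2)).2.1, hr2 _ (f C).2, ← hfv, hff]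
  -- norms
  have hNat : Nat.card S0 = Fintype.card S0 := Nat.card_eq_fintype_card
  have hHc : Nat.card S0 / 2 = H.card := by omega
  have hHo : Even H.card := by
    rw [Nat.even_iff]
    omega
  have hprod : (∏ C, Ideal.absNorm (b' C)) ≡ 1 [MOD 8] := by
    have e1 := hH5 (fun C => Ideal.absNorm (b' C))
    rw [hem, Finset.prod_empty, one_mul] at e1
    have e2 : ∏ j ∈ H, (Ideal.absNorm (b' j) * Ideal.absNorm (b' (f j))) =
        ∏ j ∈ H, (Ideal.absNorm (r j) * (M * Ideal.absNorm (r j))) := by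
      refine Finset.prod_congr rfl fun j hj => ?_
      rw [v2 j hj, v3 j hj, map_mul (Ideal.absNorm) (cj τ (mI S a) * b), (norm_cj hb hS hτ (r j)).1]
    rw [e1, e2]
    exact tr_prod H M hMo (fun j => Ideal.absNorm (r (j : ClassGroup (𝓞 K))))
      (fun j _ => oddI_of_one (hr1 _ j.2)) hHo
  refine ⟨b', hN, hkl, hprod, ?_⟩
  -- the sum
  have hsum : gpi I (∑ C, PP h.gd (b' C)) =
      ∑ j ∈ H, (A (r j) + A (cj τ (mI S a) * b * cj τ (r j))) := by
    rw [map_sum]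
    have e1 := hH4 (fun C => gpi I (PP h.gd (b' C)))
    rw [e1, hem, Finset.sum_empty, zero_add]
    refine Finset.sum_congr rfl fun j hj => ?_
    rw [v2 j hj, v3 j hj]
  have hgal : ∀ R : (cQ F).Point, gal ι R - R ∈ E1 W := fun R => gal_sub_mem hW2 hW hW' R
  rw [hHc]
  have hD : gpi I (∑ C, PP h.gd (b' C)) - (H.card : ℤ) • I T ∈ E1 W := by
    have e1 : ∑ j ∈ H, (A (r j) + A (cj τ (mI S a) * b * cj τ (r j))) =
        (H.card : ℤ) • I T - ∑ j ∈ H, (gal ι (A (r j)) - A (r j)) := by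
      rw [natCast_zsmul, ← Finset.sum_const, ← Finset.sum_sub_distrib]
      refine Finset.sum_congr rfl fun j _ => ?_
      rw [← (hstar _ (hr1 _ j.2)).2.2]
      abel
    have e3 : gpi I (∑ C, PP h.gd (b' C)) - (H.card : ℤ) • I T =
        - ∑ j ∈ H, (gal ι (A (r j)) - A (r j)) := by
      rw [hsum, e1]
      abel
    rw [e3]
    exact (E1 W).neg_mem ((E1 W).sum_mem fun j _ => hgal _)
  -- four times the difference
  have f1 : (4 : ℤ) • ∑ C, PP h.gd (b' C) = 0 := by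
    have e1 := half_tor hb h.gd hnc hI S0 h0 h1 b' hN hkl
    rw [hI.gmod.gpi_four, neg_eq_zero] at e1
    exact e1
  have f4 : (4 : ℤ) • (gpi I (∑ C, PP h.gd (b' C)) - (H.card : ℤ) • I T) = 0 := by
    rw [smul_sub, ← map_zsmul, f1, map_zero, smul_smul, mul_comm,
      ← smul_smul, ← map_zsmul, hT4, map_zero, smul_zero, sub_zero]
  exact sub_eq_zero.1 (four_tors hD f4)

end Pool.Agent.Work.MP_8efaaa_nt.X5
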