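import Mathlib
import Pool.Agent.Work.MP_8efaaa_nt.W5.CTw
import Pool.Agent.Work.MP_8efaaa_nt.Rf.Hil
import Pool.Agent.Work.MP_8efaaa_nt.N5.NMi
import Pool.Agent.Work.MP_8efaaa_nt.X5.Mu

/-!
# X5/Two (M): the classes of order two

Model: `two_S0` (W5/CTw.lean), the same computation with more divisors. `m = mI S a`, `m * P2 S = span {1 + S}` (proved in `norm_mI`, N5/NMi.lean), `P2^2 = (2)`, `k = kl (rI S q)`, `u = m * rI S r1`.
(1) `k ≠ 1`: otherwise `rI S q = (x + y S)`, `x^2 + a y^2 = q < a` (`rI_norm`): `y = 0`, `x^2 = q`, not a square.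
(2) `kl u ≠ 1`, `kl u ≠ k`: let `e = r1` or `e = r1 q` (`rI r1 * rI q = rI (r1 q)`: `Rf.rI_mul`; `k^2 = 1`). If `kl (m * rI e) = 1`: `m * rI e = (ρ)`, multiply by `P2`: `(1 + S) * rI e = (ρ) * P2`, multiply by `P2`: `(1 + S) * (rI e * P2) = (2 ρ)`, so `1 + S ∣ 2 ρ` and `rI e * P2` is principal, `= (x + y S)`, `x^2 + a y^2 = 2 e`
(`absNorm P2 = 2`, `rI_norm`). `y = 0`: `x^2 = 2 e` with `e` odd: impossible modulo `4`. `y ≠ 0`: `a = r1 r2 q ≤ 2 e ≤ 2 r1 q`, `r2 ≤ 2`: impossible (`r2 ≥ 3`).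
(3) `kl c ^ 2 = 1`, `N c = 1 (mod 4)`: `c * c = (β)`, `hil` (Rf/Hil) with `α = 1`: `(n) c = (ρ) * rI S e * P2^ε`, `n, ρ ≠ 0`, `e ∣ a`, `ε ≤ 1`: norms `n^2 N c = N(ρ) e 2^ε`, `N(ρ) = x^2 + a y^2 = 4^j v` with `v = 1 (mod 4)` or `2 * 4^j v` with `v = 3 (mod 4)` (see the header of CTw).
`ε = 0`: the power of `2` is even, so `N(ρ) = 4^j v`, `v = 1 (mod 4)`, so `e = 1 (mod 4)`: `e ∈ {1, q, r1 r2, a}` and `kl c = kl (rI e) = 1, k, k, 1` (`rI (r1 r2) * rI q = rI a = (S)`). `ε = 1`: `N(ρ) = 2 * 4^j v`, `v = 3 (mod 4)`, so `e = 3 (mod 4)`: `e ∈ {r1, r2, r1 q, r2 q}`,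
the class of `c` is the class of `rI e * P2`, and the class of `P2` is that of `m` (`m * P2` and `P2 * P2` are principal), so `kl c = kl m * kl (rI e)`; `e = r1`: `kl u`; `e = r1 q`: `kl u * k`; `e = r2`: `rI r2 * rI (r1 q) = (S)`, so `kl (rI r2) = kl (rI (r1 q))⁻¹ = kl (rI r1) * k` (all squares are `1`): `kl u * k`; `e = r2 q`: `rI (r2 q) * rI r1 = (S)`: `kl u`.
The divisors of `a = r1 r2 q`: `e ∣ r1 r2 q` (`Nat.Prime`, e.g. `(Nat.dvd_mul).1` twice and `Nat.dvd_prime`).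
-/

set_option autoImplicit false

namespace Pool.Agent.Work.MP_8efaaa_nt.X5

open NumberField Pool.Agent.Work.MP_8efaaa_nt.R Pool.Agent.Work.MP_8efaaa_nt.N5
  Pool.Agent.Work.MP_8efaaa_nt.W5

private theorem norm_aux (a r N : ℤ) (ha : a % 8 = 5) (hr : r % 4 = 1) (hN : N % 4 = 1) :
    ∀ (n : ℕ) (m x y : ℤ), m.natAbs = n → m ≠ 0 →
      m ^ 2 * N ≠ (x ^ 2 + a * y ^ 2) * r * 2 := by
  obtain ⟨a', rfl⟩ : ∃ a', a = 8 * a' + 5 := ⟨a / 8, by omega⟩
  obtain ⟨r', rfl⟩ : ∃ r', r = 4 * r' + 1 := ⟨r / 4, by omega⟩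
  obtain ⟨N', rfl⟩ : ∃ N', N = 4 * N' + 1 := ⟨N / 4, by omega⟩
  intro n
  induction n using Nat.strong_induction_on with
  | _ n ih =>
    intro m x y hmn hm0 h
    rcases Int.even_or_odd' m with ⟨m', rfl | rfl⟩
    · rcases Int.even_or_odd' x with ⟨x', rfl | rfl⟩ <;>
        rcases Int.even_or_odd' y with ⟨y', rfl | rfl⟩
      · refine ih m'.natAbs ?_ m' x' y' rfl ?_ ?_
        · omega
        · omega
        · linarith
      · exfalso
        have h1 : (2 : ℤ) * (m' ^ 2 * (4 * N' + 1) - x' ^ 2 * (4 * r' + 1) * 2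
            - (8 * a' + 5) * (y' ^ 2 + y') * (4 * r' + 1) * 2
            - (16 * a' * r' + 4 * a' + 10 * r' + 2)) = 1 := by
          linarith
        omega
      · exfalso
        have h1 : (2 : ℤ) * (m' ^ 2 * (4 * N' + 1) - (x' ^ 2 + x') * (4 * r' + 1) * 2
            - (8 * a' + 5) * y' ^ 2 * (4 * r' + 1) * 2 - 2 * r') = 1 := by
          linarith
        omega
      · exfalso
        obtain ⟨t, ht⟩ := Int.even_mul_succ_self x'
        obtain ⟨u, hu⟩ := Int.even_mul_succ_self y'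
        have h1 : m' ^ 2 = 4 * ((t + 8 * a' * u + a' + 5 * u) * (4 * r' + 1) + 3 * r'
            - m' ^ 2 * N') + 3 := by
          have h2 : 4 * m' ^ 2 = 4 * (4 * ((t + 8 * a' * u + a' + 5 * u) * (4 * r' + 1) + 3 * r'
            - m' ^ 2 * N') + 3) := by
            linear_combination h + 8 * (4 * r' + 1) * ht + 8 * (8 * a' + 5) * (4 * r' + 1) * hu
          linarith
        generalize (t + 8 * a' * u + a' + 5 * u) * (4 * r' + 1) + 3 * r' - m' ^ 2 * N' = Z at h1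
        rcases Int.even_or_odd' m' with ⟨k, rfl | rfl⟩
        · have h3 : 4 * k ^ 2 = 4 * Z + 3 := by linarith
          omega
        · have h3 : 4 * (k ^ 2 + k) + 1 = 4 * Z + 3 := by linarith
          omega
    · exfalso
      have h1 : (2 : ℤ) * (2 * (m' ^ 2 + m') * (4 * N' + 1) + 2 * N'
          - (x ^ 2 + (8 * a' + 5) * y ^ 2) * (4 * r' + 1)) = -1 := by
        linarith
      omega

private theorem aux8 : ∀ m x y : ZMod 8, ∀ N ∈ ({1, 5} : Finset (ZMod 8)),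
    ∀ r ∈ ({3, 7} : Finset (ZMod 8)), m ^ 2 * N = (x ^ 2 + 5 * y ^ 2) * r →
      4 * m = 0 ∧ 4 * x = 0 ∧ 4 * y = 0 := by
  decide

private theorem even8 {z : ℤ} (h : (4 : ZMod 8) * (z : ZMod 8) = 0) : ∃ w, z = 2 * w := by
  have h1 : ((4 * z : ℤ) : ZMod 8) = 0 := by
    push_cast
    exact h
  obtain ⟨k, hk⟩ := (ZMod.intCast_zmod_eq_zero_iff_dvd _ 8).1 h1
  exact ⟨k, by push_cast at hk; omega⟩

private theorem norm_aux' (a r N : ℤ) (ha : a % 8 = 5) (hr : r % 4 = 3) (hN : N % 4 = 1) :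
    ∀ (n : ℕ) (m x y : ℤ), m.natAbs = n → m ≠ 0 →
      m ^ 2 * N ≠ (x ^ 2 + a * y ^ 2) * r := by
  have ha' : (a : ZMod 8) = 5 := by
    have : ((a : ℤ) : ZMod 8) = ((5 : ℤ) : ZMod 8) :=
      (ZMod.intCast_eq_intCast_iff_dvd_sub a 5 8).2 (by push_cast; omega)
    exact_mod_cast this
  have hr' : (r : ZMod 8) ∈ ({3, 7} : Finset (ZMod 8)) := by
    have h1 : r % 8 = 3 ∨ r % 8 = 7 := by omega
    rcases h1 with h1 | h1
    · have : ((r : ℤ) : ZMod 8) = ((3 : ℤ) : ZMod 8) :=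
        (ZMod.intCast_eq_intCast_iff_dvd_sub r 3 8).2 (by push_cast; omega)
      rw [this]
      decide
    · have : ((r : ℤ) : ZMod 8) = ((7 : ℤ) : ZMod 8) :=
        (ZMod.intCast_eq_intCast_iff_dvd_sub r 7 8).2 (by push_cast; omega)
      rw [this]
      decide
  have hN' : (N : ZMod 8) ∈ ({1, 5} : Finset (ZMod 8)) := by
    have h1 : N % 8 = 1 ∨ N % 8 = 5 := by omega
    rcases h1 with h1 | h1
    · have : ((N : ℤ) : ZMod 8) = ((1 : ℤ) : ZMod 8) :=
        (ZMod.intCast_eq_intCast_iff_dvd_sub N 1 8).2 (by push_cast; omega)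
      rw [this]
      decide
    · have : ((N : ℤ) : ZMod 8) = ((5 : ℤ) : ZMod 8) :=
        (ZMod.intCast_eq_intCast_iff_dvd_sub N 5 8).2 (by push_cast; omega)
      rw [this]
      decide
  intro n
  induction n using Nat.strong_induction_on with
  | _ n ih =>
    intro m x y hmn hm0 h
    have h8 : (m : ZMod 8) ^ 2 * (N : ZMod 8) =
        ((x : ZMod 8) ^ 2 + 5 * (y : ZMod 8) ^ 2) * (r : ZMod 8) := by
      have h1 := congrArg (Int.cast (R := ZMod 8)) h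
      push_cast at h1
      rw [ha'] at h1
      exact h1
    obtain ⟨e1, e2, e3⟩ := aux8 _ _ _ _ hN' _ hr' h8
    obtain ⟨m', rfl⟩ := even8 e1
    obtain ⟨x', rfl⟩ := even8 e2
    obtain ⟨y', rfl⟩ := even8 e3
    refine ih m'.natAbs ?_ m' x' y' rfl ?_ ?_
    · omega
    · omega
    · linarith

private theorem mI_P2 {K : Type*} [Field K] [NumberField K] {a : ℕ} {S : 𝓞 K} (hQ : Q5 K a S) :
    mI S a * Q5.P2 S = Ideal.span {1 + S} := by
  have ha8 := hQ.mod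
  obtain ⟨n, hn⟩ : ∃ n : ℕ, (1 + a) / 2 = n := ⟨_, rfl⟩
  have hn2 : 1 + a = 2 * n := by omega
  obtain ⟨m, hm⟩ : ∃ m : ℕ, n = 2 * m + 1 := ⟨n / 2, by omega⟩
  have h2n : (1 + S) * (1 - S) = 2 * (n : 𝓞 K) := by
    have h1 := hQ.sq
    have h2 := congrArg (Nat.cast (R := 𝓞 K)) hn2
    push_cast at h2
    linear_combination h2 - h1
  unfold mI Q5.P2
  rw [hn, Ideal.span_pair_mul_span_pair]
  apply le_antisymm
  · rw [Ideal.span_le]
    rintro z (rfl | rfl | rfl | rfl)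
    · rw [SetLike.mem_coe, Ideal.mem_span_singleton]
      exact ⟨1 - S, by rw [h2n]; ring⟩
    · rw [SetLike.mem_coe, Ideal.mem_span_singleton]
      exact dvd_mul_left _ _
    · rw [SetLike.mem_coe, Ideal.mem_span_singleton]
      exact dvd_mul_right _ _
    · rw [SetLike.mem_coe, Ideal.mem_span_singleton]
      exact dvd_mul_right _ _
  · rw [Ideal.span_singleton_le_iff_mem]
    have h3 : (n : 𝓞 K) * (1 + S) ∈ Ideal.span {(n : 𝓞 K) * 2, (n : 𝓞 K) * (1 + S),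
        (1 + S) * 2, (1 + S) * (1 + S)} := Ideal.subset_span (by simp)
    have h4 : (1 + S) * 2 ∈ Ideal.span {(n : 𝓞 K) * 2, (n : 𝓞 K) * (1 + S),
        (1 + S) * 2, (1 + S) * (1 + S)} := Ideal.subset_span (by simp)
    have h5 : 1 + S = (n : 𝓞 K) * (1 + S) - (m : 𝓞 K) * ((1 + S) * 2) := by
      rw [hm]
      push_cast
      ring
    have h6 := Ideal.sub_mem _ h3 (Ideal.mul_mem_left _ (m : 𝓞 K) h4)
    rw [← h5] at h6
    exact h6

/-- the class of `m * rI S e` is not trivial for small `e` -/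
private theorem not_pr {K : Type*} [Field K] [NumberField K] {a : ℕ} {s : K} (hb : Base5 K a s)
    {S : 𝓞 K} (hS : algebraMap (𝓞 K) K S = s) (hQ : Q5 K a S) {e : ℕ} (he : e ∣ a)
    (heo : e % 2 = 1) (hea : 2 * e < a) (δ : 𝓞 K) : mI S a * Rf.rI S e ≠ Ideal.span {δ} := by
  intro h
  have hne : (1 + S : 𝓞 K) ≠ 0 := by
    intro h0
    have h1 := hQ.norm_gen 1 1
    have e1 : (((1 : ℤ) : 𝓞 K) + ((1 : ℤ) : 𝓞 K) * S) = 1 + S := by push_cast; ring
    rw [e1, h0, Ideal.span_singleton_eq_bot.2 rfl, Ideal.absNorm_bot] at h1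
    push_cast at h1
    have : (0 : ℤ) ≤ a := Int.natCast_nonneg a
    linarith
  have h1 : Ideal.span {1 + S} * (Rf.rI S e * Q5.P2 S) = Ideal.span {2 * δ} := by
    rw [← mI_P2 hQ]
    calc mI S a * Q5.P2 S * (Rf.rI S e * Q5.P2 S)
        = (mI S a * Rf.rI S e) * (Q5.P2 S * Q5.P2 S) := by ring
      _ = Ideal.span {δ} * Ideal.span {2} := by rw [h, hQ.p2_sq]
      _ = Ideal.span {2 * δ} := by rw [Ideal.span_singleton_mul_span_singleton, mul_comm]
  have h2 : (1 + S) ∣ 2 * δ := by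
    rw [← Ideal.mem_span_singleton]
    have h3 : Ideal.span {2 * δ} ≤ Ideal.span {(1 + S : 𝓞 K)} := by
      rw [← h1]
      exact Ideal.mul_le_left
    exact h3 (Ideal.mem_span_singleton_self (2 * δ))
  obtain ⟨t, ht⟩ := h2
  rw [ht, ← Ideal.span_singleton_mul_span_singleton] at h1
  have h3 : Rf.rI S e * Q5.P2 S = Ideal.span {t} := by
    refine mul_left_cancel₀ ?_ h1
    rw [Ne, Ideal.zero_eq_bot, Ideal.span_singleton_eq_bot]
    exact hne
  obtain ⟨x, y, rfl⟩ := hQ.coords t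
  have h4 := hQ.norm_gen x y
  rw [← h3, map_mul, Rf.rI_norm hb hS he, hQ.norm_p2] at h4
  push_cast at h4
  by_cases hy : y = 0
  · subst hy
    have h5 : (e : ℤ) * 2 = x ^ 2 := by linarith
    rcases Int.even_or_odd' x with ⟨z, rfl | rfl⟩
    · have h6 : (e : ℤ) = 2 * z ^ 2 := by linarith
      omega
    · have h6 : (2 : ℤ) * (e - 2 * z ^ 2 - 2 * z) = 1 := by linarith
      omega
  · have h5 : (1 : ℤ) ≤ y ^ 2 := by
      have := sq_pos_of_ne_zero hy
      linarith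
    have h6 : (a : ℤ) ≤ e * 2 := by
      nlinarith [sq_nonneg x, mul_nonneg (by positivity : (0 : ℤ) ≤ a)
        (by linarith : (0 : ℤ) ≤ y ^ 2 - 1)]
    have h7 : (2 * e : ℤ) < a := by exact_mod_cast hea
    linarith

theorem two_S0_3 {K : Type*} [Field K] [NumberField K] {a : ℕ} {s : K} (hb : Base5 K a s)
    {S : 𝓞 K} (hS : algebraMap (𝓞 K) K S = s) {r1 r2 q : ℕ} (h1 : r1.Prime) (h2 : r2.Prime)
    (hq : q.Prime) (h18 : r1 % 8 = 3) (h28 : r2 % 8 = 3) (hq8 : q % 8 = 5)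
    (ha : a = r1 * r2 * q) :
    kl (Rf.rI S q) ≠ 1 ∧ kl (mI S a * Rf.rI S r1) ≠ 1 ∧
    kl (mI S a * Rf.rI S r1) ≠ kl (Rf.rI S q) ∧
    ∀ c : Ideal (𝓞 K), Ideal.absNorm c % 4 = 1 → kl c ^ 2 = 1 →
      kl c = 1 ∨ kl c = kl (Rf.rI S q) ∨ kl c = kl (mI S a * Rf.rI S r1) ∨
        kl c = kl (mI S a * Rf.rI S r1) * kl (Rf.rI S q) := by
  have hQ : Q5 K a S := by
    obtain ⟨S', h1, h2⟩ := exists_Q5 hb
    have h3 : S' = S := FaithfulSMul.algebraMap_injective (𝓞 K) K (h1.trans hS.symm)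
    rwa [h3] at h2
  have ha8 := hb.mod
  have r1a : r1 ∣ a := ⟨r2 * q, by rw [ha, mul_assoc]⟩
  have r2a : r2 ∣ a := ⟨r1 * q, by rw [ha]; ring⟩
  have qa : q ∣ a := ⟨r1 * r2, by rw [ha, mul_comm]⟩
  have r1qa : r1 * q ∣ a := ⟨r2, by rw [ha]; ring⟩
  have r2qa : r2 * q ∣ a := ⟨r1, by rw [ha]; ring⟩
  have r12a : r1 * r2 ∣ a := ⟨q, by rw [ha]⟩
  have hodd : ∀ e : ℕ, e ∣ a → OddI (Rf.rI S e) := by
    intro e he
    unfold OddI
    rw [Rf.rI_norm hb hS he]
    have : Odd a := Nat.odd_iff.2 (by omega)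
    exact this.of_dvd_nat he
  have hom : OddI (mI S a) := by
    unfold OddI
    rw [norm_mI hb hS, Nat.odd_iff]
    omega
  have hsq : ∀ e : ℕ, e ∣ a → kl (Rf.rI S e) * kl (Rf.rI S e) = 1 := by
    intro e he
    rw [← kl_mul (hodd e he) (hodd e he), kl_eq_one ((hodd e he).mul (hodd e he))]
    exact ⟨_, Rf.rI_sq hb hS he⟩
  have hmul : ∀ d e : ℕ, d * e ∣ a → kl (Rf.rI S (d * e)) = kl (Rf.rI S d) * kl (Rf.rI S e) := by
    intro d e hde
    rw [← Rf.rI_mul hb hS hde, kl_mul (hodd d ((dvd_mul_right d e).trans hde))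
      (hodd e ((dvd_mul_left e d).trans hde))]
  have hall : kl (Rf.rI S r1) * kl (Rf.rI S r2) * kl (Rf.rI S q) = 1 := by
    rw [← hmul r1 r2 r12a, ← hmul (r1 * r2) q (dvd_of_eq ha.symm), ← ha, kl_eq_one (hodd a dvd_rfl)]
    exact ⟨_, Rf.rI_self hb hS⟩
  have s1 := hsq r1 r1a
  have s2 := hsq r2 r2a
  have s3 := hsq q qa
  have hu : kl (mI S a * Rf.rI S r1) = kl (mI S a) * kl (Rf.rI S r1) := kl_mul hom (hodd r1 r1a)
  have hMM : kl (mI S a) * kl (mI S a) = 1 := by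
    have h3 := (kl_u_sq hb hS r1a h18).2
    rw [hu, pow_two] at h3
    calc kl (mI S a) * kl (mI S a)
        = (kl (mI S a) * kl (Rf.rI S r1) * (kl (mI S a) * kl (Rf.rI S r1))) *
          (kl (Rf.rI S r1) * kl (Rf.rI S r1))⁻¹ := by
          rw [s1, inv_one, mul_one, mul_mul_mul_comm, s1, mul_one]
      _ = 1 := by rw [h3, s1, inv_one, mul_one]
  -- `kl (rI r2)`
  have hk2 : kl (Rf.rI S r2) = kl (Rf.rI S r1) * kl (Rf.rI S q) := by
    have h3 : kl (Rf.rI S r2) * (kl (Rf.rI S r1) * kl (Rf.rI S q)) = 1 := by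
      rw [← hall]
      exact mul_left_comm _ _ _ |>.trans (mul_assoc _ _ _).symm
    have h4 : (kl (Rf.rI S r1) * kl (Rf.rI S q)) * (kl (Rf.rI S r1) * kl (Rf.rI S q)) = 1 := by
      rw [mul_mul_mul_comm, s1, s3, mul_one]
    rw [eq_inv_of_mul_eq_one_left h3]
    exact (eq_inv_of_mul_eq_one_left h4).symm
  have hr1 : 3 ≤ r1 := by omega
  have hr2 : 3 ≤ r2 := by omega
  have hq5 : 5 ≤ q := by omega
  refine ⟨?_, ?_, ?_, ?_⟩
  · intro h3
    obtain ⟨δ, hδ⟩ := (kl_eq_one (hodd q qa)).1 h3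
    obtain ⟨x, y, rfl⟩ := hQ.coords δ
    have h4 := hQ.norm_gen x y
    rw [← hδ, Rf.rI_norm hb hS qa] at h4
    by_cases hy : y = 0
    · subst hy
      have h5 : (q : ℤ) = x ^ 2 := by linarith
      have h6 : q = x.natAbs ^ 2 := by
        zify
        rw [sq_abs]
        exact h5
      rw [h6] at hq
      exact Nat.Prime.not_prime_pow (le_refl 2) hq
    · have h5 : (1 : ℤ) ≤ y ^ 2 := by
        have := sq_pos_of_ne_zero hy
        linarith
      have h7 : (a : ℤ) ≤ q := by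
        nlinarith [sq_nonneg x, mul_nonneg (by positivity : (0 : ℤ) ≤ a)
          (by linarith : (0 : ℤ) ≤ y ^ 2 - 1)]
      have h8 : a ≤ q := by exact_mod_cast h7
      rw [ha] at h8
      have h9 : 9 * q ≤ r1 * r2 * q := Nat.mul_le_mul_right q (Nat.mul_le_mul hr1 hr2)
      omega
  · intro h3
    obtain ⟨δ, hδ⟩ := (kl_eq_one (hom.mul (hodd r1 r1a))).1 h3
    refine not_pr hb hS hQ r1a (by omega) ?_ δ hδ
    rw [ha, mul_assoc]
    have h9 : 15 * r1 ≤ r1 * (r2 * q) := by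
      rw [mul_comm]
      exact Nat.mul_le_mul_left r1 (Nat.mul_le_mul hr2 hq5)
    omega
  · intro h3
    have h4 : kl (mI S a * Rf.rI S (r1 * q)) = 1 := by
      rw [kl_mul hom (hodd _ r1qa), hmul r1 q r1qa, ← mul_assoc, ← hu, h3, s3]
    obtain ⟨δ, hδ⟩ := (kl_eq_one (hom.mul (hodd _ r1qa))).1 h4
    refine not_pr hb hS hQ r1qa ?_ ?_ δ hδ
    · rw [Nat.mul_mod]
      have e1 : r1 % 2 = 1 := by omega
      have e2 : q % 2 = 1 := by omega
      rw [e1, e2]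
    · have h9 : 3 * (r1 * q) ≤ r2 * (r1 * q) := Nat.mul_le_mul_right _ hr2
      have h10 : a = r2 * (r1 * q) := by rw [ha]; ring
      have h11 : 0 < r1 * q := Nat.mul_pos (by omega) (by omega)
      rw [h10]
      omega
  · intro c hc hk
    have hoc : OddI c := by
      unfold OddI
      rw [Nat.odd_iff]
      omega
    obtain ⟨β, hβ⟩ : ∃ β : 𝓞 K, c ^ 2 = Ideal.span {β} := by
      rw [← kl_eq_one, kl_pow hoc, hk]
      unfold OddI
      rw [map_pow]
      exact Odd.pow hoc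
    obtain ⟨m, r, ε, ρ, hm, hρ, hr, hε, h⟩ := Rf.hil hb hS hoc (α := 1) (β := β) one_ne_zero (by
      rw [Ideal.span_singleton_one, Ideal.top_mul, hβ])
    have hr8 : r = 1 ∨ r = q ∨ r = r1 * r2 ∨ r = a ∨ r = r1 ∨ r = r2 ∨ r = r1 * q ∨
        r = r2 * q := by
      rw [ha] at hr
      obtain ⟨k1, k2, e1, e2, e3⟩ := (Nat.dvd_mul).1 hr
      obtain ⟨k3, k4, e4, e5, e6⟩ := (Nat.dvd_mul).1 e1
      rcases (Nat.dvd_prime h1).1 e4 with rfl | rfl <;>
        rcases (Nat.dvd_prime h2).1 e5 with rfl | rfl <;>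
        rcases (Nat.dvd_prime hq).1 e2 with rfl | rfl <;>
        subst e6 <;> subst e3 <;> simp [ha]
    have hro : r % 4 = 1 ∧ (r = 1 ∨ r = q ∨ r = r1 * r2 ∨ r = a) ∨
        r % 4 = 3 ∧ (r = r1 ∨ r = r2 ∨ r = r1 * q ∨ r = r2 * q) := by
      have e1 : r1 % 4 = 3 := by omega
      have e2 : r2 % 4 = 3 := by omega
      have e3 : q % 4 = 1 := by omega
      rcases hr8 with h | h | h | h | h | h | h | h
      · exact Or.inl ⟨by rw [h], Or.inl h⟩
      · exact Or.inl ⟨by rw [h, e3], Or.inr (Or.inl h)⟩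
      · exact Or.inl ⟨by rw [h, Nat.mul_mod, e1, e2], Or.inr (Or.inr (Or.inl h))⟩
      · exact Or.inl ⟨by omega, Or.inr (Or.inr (Or.inr h))⟩
      · exact Or.inr ⟨by rw [h, e1], Or.inl h⟩
      · exact Or.inr ⟨by rw [h, e2], Or.inr (Or.inl h)⟩
      · exact Or.inr ⟨by rw [h, Nat.mul_mod, e1, e3], Or.inr (Or.inr (Or.inl h))⟩
      · exact Or.inr ⟨by rw [h, Nat.mul_mod, e2, e3], Or.inr (Or.inr (Or.inr h))⟩
    have hnorm : ((m : ℤ)) ^ 2 * (Ideal.absNorm c : ℤ) =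
        (Ideal.absNorm (Ideal.span {ρ}) : ℤ) * r * 2 ^ ε := by
      have g1 := congrArg Ideal.absNorm h
      rw [map_mul, map_mul, map_mul, map_pow, Rf.rI_norm hb hS hr, hQ.norm_p2] at g1
      have g3 := hQ.norm_gen (m : ℤ) 0
      have e3 : ((m : ℤ) : 𝓞 K) + ((0 : ℤ) : 𝓞 K) * S = (m : 𝓞 K) := by push_cast; ring
      rw [e3] at g3
      have g5 := congrArg (Nat.cast (R := ℤ)) g1
      push_cast at g5
      rw [g3] at g5
      linarith
    have hor := hodd r hr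
    have hε01 : ε = 0 ∨ ε = 1 := by omega
    rcases hε01 with rfl | rfl
    · rcases hro with ⟨-, hro⟩ | ⟨hr3, -⟩
      swap
      · exfalso
        obtain ⟨x, y, rfl⟩ := hQ.coords ρ
        rw [hQ.norm_gen x y, pow_zero, mul_one] at hnorm
        exact norm_aux' a r (Ideal.absNorm c) (by omega) (by omega) (by omega) _ m x y rfl
          (by exact_mod_cast hm) hnorm
      rw [pow_zero, mul_one] at h
      have hkc : kl c = kl (Rf.rI S r) := by
        rw [kl_mk0 (ne_bot_of_odd hoc), kl_mk0 (ne_bot_of_odd hor), ClassGroup.mk0_eq_mk0_iff]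
        exact ⟨(m : 𝓞 K), ρ, by exact_mod_cast hm, hρ, h⟩
      rw [hkc]
      rcases hro with rfl | rfl | rfl | rfl
      · left
        rw [Rf.rI_one, ← Ideal.one_eq_top]
        exact kl_one (K := K)
      · right; left
        rfl
      · right; left
        rw [hmul r1 r2 r12a, hk2, ← mul_assoc, s1, one_mul]
      · left
        rw [kl_eq_one (hodd r dvd_rfl)]
        exact ⟨_, Rf.rI_self hb hS⟩
    · rcases hro with ⟨hr1', -⟩ | ⟨-, hro⟩
      · exfalso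
        obtain ⟨x, y, rfl⟩ := hQ.coords ρ
        rw [hQ.norm_gen x y, pow_one] at hnorm
        exact norm_aux a r (Ideal.absNorm c) (by omega) (by omega) (by omega) _ m x y rfl
          (by exact_mod_cast hm) hnorm
      rw [pow_one] at h
      have hne : (1 + S : 𝓞 K) ≠ 0 := by
        intro h0
        have g1 := hQ.norm_gen 1 1
        have e1 : (((1 : ℤ) : 𝓞 K) + ((1 : ℤ) : 𝓞 K) * S) = 1 + S := by push_cast; ring
        rw [e1, h0, Ideal.span_singleton_eq_bot.2 rfl, Ideal.absNorm_bot] at g1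
        push_cast at g1
        have : (0 : ℤ) ≤ a := Int.natCast_nonneg a
        linarith
      have hkc : kl (c * mI S a) = kl (Rf.rI S r) := by
        rw [kl_mk0 (ne_bot_of_odd (hoc.mul hom)), kl_mk0 (ne_bot_of_odd hor),
          ClassGroup.mk0_eq_mk0_iff]
        refine ⟨(m : 𝓞 K), ρ * (1 + S), by exact_mod_cast hm, mul_ne_zero hρ hne, ?_⟩
        change Ideal.span {(m : 𝓞 K)} * (c * mI S a) = Ideal.span {ρ * (1 + S)} * Rf.rI S r
        rw [← mul_assoc, h, ← Ideal.span_singleton_mul_span_singleton, ← mI_P2 hQ]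
        ring
      rw [kl_mul hoc hom] at hkc
      have hkc2 : kl c = kl (mI S a) * kl (Rf.rI S r) := by
        rw [← hkc, mul_left_comm, hMM, mul_one]
      rw [hkc2, hu]
      rcases hro with rfl | rfl | rfl | rfl
      · right; right; left
        rfl
      · right; right; right
        rw [hk2, mul_assoc]
      · right; right; right
        rw [hmul r1 q r1qa, mul_assoc]
      · right; right; left
        rw [hmul r2 q r2qa, hk2, mul_assoc, s3, mul_one]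

end Pool.Agent.Work.MP_8efaaa_nt.X5
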