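import Mathlib
import Pool.Agent.Work.MP_8efaaa_nt.R.Main
import Pool.Agent.Work.MP_8efaaa_nt.Rf.Ex
import Pool.Agent.Work.MP_8efaaa_nt.N5.DIn
import Pool.Agent.Work.MP_8efaaa_nt.N5.NMi
import Pool.Agent.Work.MP_8efaaa_nt.N5.EQt
import Pool.Agent.Work.MP_8efaaa_nt.W5.TCo
import Pool.Agent.Work.MP_8efaaa_nt.W5.TFr
import Pool.Agent.Work.MP_8efaaa_nt.W5.GTy
import Pool.Agent.Work.MP_8efaaa_nt.W5.CPr
import Pool.Agent.Work.MP_8efaaa_nt.X5.Defs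
import Pool.Agent.Work.MP_8efaaa_nt.X5.Dat
import Pool.Agent.Work.MP_8efaaa_nt.X5.Iot
import Pool.Agent.Work.MP_8efaaa_nt.X5.Mu
import Pool.Agent.Work.MP_8efaaa_nt.X5.Two
import Pool.Agent.Work.MP_8efaaa_nt.X5.Gen
import Pool.Agent.Work.MP_8efaaa_nt.X5.TotR
import Pool.Agent.Work.MP_8efaaa_nt.X5.TotQ
import Pool.Agent.Work.MP_8efaaa_nt.X5.TOne
import Pool.Agent.Work.MP_8efaaa_nt.X5.Shf

/-!
# X5/Main: the theorem

Every product of three primes `3, 3, 5` modulo `8` is a congruent number.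
-/

set_option autoImplicit false

namespace Pool.Agent.Work.MP_8efaaa_nt.X5

open NumberField Pool.Agent.Work.MP_8efaaa_nt.R Pool.Agent.Work.MP_8efaaa_nt.N5
  Pool.Agent.Work.MP_8efaaa_nt.W5
open scoped Classical nonZeroDivisors

private theorem gt_add_T {F : Type*} [Field F] [CharZero F] {x y : F} (h : y ^ 2 = x ^ 3 - x)
    (hx : x ≠ 0) (h0 : (0 : F) ^ 2 = 0 ^ 3 - 0) :
    ∃ h', pt x y h + pt 0 0 h0 = pt (-1 / x) (y / x ^ 2) h' := by
  have hs : (cQ F).slope x 0 y 0 = y / x := by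
    rw [WeierstrassCurve.Affine.slope_of_X_ne hx]
    simp
  have hX : (cQ F).addX x 0 (y / x) = -1 / x := by
    simp only [WeierstrassCurve.Affine.addX, cQ]
    field_simp
    linear_combination h
  have hY : (cQ F).addY x 0 y (y / x) = y / x ^ 2 := by
    simp only [WeierstrassCurve.Affine.addY, WeierstrassCurve.Affine.negY,
      WeierstrassCurve.Affine.negAddY, hX]
    simp only [cQ]
    field_simp
    ring
  have hadd : pt x y h + pt 0 0 h0 = WeierstrassCurve.Affine.Point.some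
      ((cQ F).addX x 0 (y / x)) ((cQ F).addY x 0 y (y / x)) (by
        rw [← hs]
        exact WeierstrassCurve.Affine.nonsingular_add (cQ_nonsingular.2 h) (cQ_nonsingular.2 h0)
          (fun hc => hx hc.1)) := by
    unfold pt
    rw [WeierstrassCurve.Affine.Point.add_of_X_ne hx, WeierstrassCurve.Affine.Point.some.injEq, hs]
    exact ⟨rfl, rfl⟩
  refine ⟨?_, ?_⟩
  · rw [← hX, ← hY, ← cQ_nonsingular, ← hs]
    exact WeierstrassCurve.Affine.nonsingular_add (cQ_nonsingular.2 h) (cQ_nonsingular.2 h0)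
          (fun hc => hx hc.1)
  · rw [hadd]
    unfold pt
    rw [WeierstrassCurve.Affine.Point.some.injEq]
    exact ⟨hX, hY⟩

/-- `(-1, 0) - (0, 0) = (1, 0)` -/
private theorem em_ez {F : Type*} [Field F] [CharZero F] {i : F}
    {I : (cQ F).Point →+ (cQ F).Point} (hI : CMI i I) : Em F - Ez F = Ep F := by
  have hne : (-1 : F) ≠ 0 := neg_ne_zero.2 one_ne_zero
  have h2 : Ez F + Ez F = 0 := by
    have := hI.gmod.two_T
    rw [two_zsmul] at this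
    exact this
  have h3 : -Ez F = Ez F := neg_eq_of_add_eq_zero_left h2
  rw [sub_eq_add_neg, h3]
  obtain ⟨h', e⟩ := gt_add_T (F := F) (x := -1) (y := 0) (by norm_num) hne (by norm_num)
  unfold Em Ez Ep
  rw [e, pt_inj]
  constructor
  · norm_num
  · norm_num

/-- a prime not in `L` -/
private theorem not_mem {F : Type} [Field F] [NumberField F] {ι : F ≃ₐ[ℚ] F} {L : Ideal (𝓞 F)}
    (hin : Inert ι L) {l l' : ℕ} (hl : l.Prime) (hl' : l'.Prime) (hne : l ≠ l')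
    (hlL : (l : 𝓞 F) ∈ L) : (l' : 𝓞 F) ∉ L := by
  intro h'
  have hco : IsCoprime (l : ℤ) (l' : ℤ) :=
    Nat.isCoprime_iff_coprime.2 ((Nat.coprime_primes hl hl').2 hne)
  obtain ⟨x, y, hxy⟩ := hco
  apply hin.prime.ne_top
  rw [Ideal.eq_top_iff_one]
  have h1 : (1 : 𝓞 F) = (x : 𝓞 F) * (l : 𝓞 F) + (y : 𝓞 F) * (l' : 𝓞 F) := by
    exact_mod_cast congrArg (Int.cast : ℤ → 𝓞 F) hxy.symm
  rw [h1]
  exact L.add_mem (L.mul_mem_left _ hlL) (L.mul_mem_left _ h')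

/-- the part over `F` -/
private theorem core {K : Type} {F : Type} [Field K] [NumberField K] [Field F] [NumberField F]
    [Algebra K F] [FiniteDimensional K F] [IsGalois K F] [IsGalois ℚ F] {a r1 r2 q : ℕ}
    (h1p : r1.Prime) (h2p : r2.Prime) [hqF : Fact q.Prime] (h12 : r1 ≠ r2) (h18 : r1 % 8 = 3)
    (h28 : r2 % 8 = 3) (hq8 : q % 8 = 5)
    (ha : a = r1 * r2 * q) {s : K} (hb : Base5 K a s) (hnc : ¬ IsCongruent a)
    (h8 : 8 ∣ Fintype.card (ClassGroup (𝓞 K)))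
    {S : 𝓞 K} (hS : algebraMap (𝓞 K) K S = s) {τ : 𝓞 K ≃+* 𝓞 K} (hτ : τ S = -S) {ζ w w2 : F}
    {X Y V U : Ideal (𝓞 K) → F} {κ : F ≃ₐ[ℚ] F}
    (h : TDat K F a r1 r2 s S τ ζ w w2 X Y V U κ) : False := by
  have hq : q.Prime := hqF.out
  have h1a : r1 ∣ a := ⟨r2 * q, by rw [ha]; ring⟩
  have h2a : r2 ∣ a := ⟨r1 * q, by rw [ha]; ring⟩
  have hqa : q ∣ a := ⟨r1 * r2, by rw [ha]; ring⟩
  have h1q : r1 ≠ q := by
    rintro rfl
    omega
  have h2q : r2 ≠ q := by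
    rintro rfl
    omega
  have ha8 := hb.mod
  have ha0 : a ≠ 0 := by omega
  have hD := h.rd.id
  have hz8 := hD.gd.z8
  obtain ⟨I, hI⟩ := exists_cmi (i_sq hz8)
  have hsF : (algebraMap K F s) ^ 2 = -(a : F) := by
    rw [← map_pow, hb.sq, map_neg, map_natCast]
  obtain ⟨T, hTm, hT4, hT⟩ := exists_T hb hS hD hI
  have hcn : ∀ c : Ideal (𝓞 K), Ideal.absNorm (cj τ c) = Ideal.absNorm c :=
    fun c => (norm_cj hb hS hτ c).1
  have hn : ∀ b : Ideal (𝓞 K), Ideal.absNorm (cj τ (mI S a) * b) =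
      (1 + a) / 2 * Ideal.absNorm b := by
    intro b
    rw [map_mul, hcn, norm_mI hb hS]
  have hn3 : (1 + a) / 2 % 4 = 3 := by omega
  have hnorm : ∀ b : Ideal (𝓞 K), Ideal.absNorm b % 8 = 7 →
      Ideal.absNorm (cj τ (mI S a) * b) % 4 = 1 := by
    intro b hb7
    rw [hn, Nat.mul_mod, hn3]
    have : Ideal.absNorm b % 4 = 3 := by omega
    rw [this]
  have hcop : Nat.Coprime ((1 + a) / 2) a := by
    have h1 : 2 * ((1 + a) / 2) = 1 + a := by omega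
    have h2 : Nat.gcd ((1 + a) / 2) a ∣ 1 := by
      have h3 : Nat.gcd ((1 + a) / 2) a ∣ 2 * ((1 + a) / 2) :=
        Dvd.dvd.mul_left (Nat.gcd_dvd_left _ _) _
      rw [h1] at h3
      exact (Nat.dvd_add_left (Nat.gcd_dvd_right _ _)).1 h3
    exact Nat.dvd_one.1 h2
  have hcopb : ∀ b : Ideal (𝓞 K), Nat.Coprime (Ideal.absNorm b) a →
      Nat.Coprime (Ideal.absNorm (cj τ (mI S a) * b)) a := by
    intro b hba
    rw [hn]
    exact Nat.Coprime.mul_left hcop hba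
  have hjac : ∀ r : ℕ, r ∣ a → r % 8 = 3 → ∀ b : Ideal (𝓞 K), Ideal.absNorm b % 8 = 7 →
      jacobiSym r (Ideal.absNorm (cj τ (mI S a) * b)) = jacobiSym r (Ideal.absNorm b) := by
    intro r hr hr8 b hb7
    have z1 : NeZero ((1 + a) / 2) := ⟨by omega⟩
    have z2 : NeZero (Ideal.absNorm b) := ⟨by omega⟩
    rw [hn, jacobiSym.mul_right, jac_mi hb.mod hr (Or.inr hr8), one_mul]
  -- the three inertia elements
  obtain ⟨ι1, L1, hin1, hl1, hι1s⟩ := exists_inert (F := F) hb h1p h1a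
  have hι1z := inert_zeta hin1 hz8
  have hι1w := inert_w hin1 hz8 hb.sf hsF hD.hw h1a h1p (dvd_refl r1) hl1 hι1s
  have hι1w2 : ι1 w2 = w2 := inert_sq hin1 (n := (r2 : ℤ)) (by rw [h.sq2]; simp)
    (by simpa using not_mem hin1 h1p h2p h12 hl1)
  obtain ⟨c1, hc17, hc1a, -, j11, j12, -, hc1i⟩ := iota_2 hb hS hτ h h1p.ne_zero h2p.ne_zero hI
    hι1s hι1z
  have j11' := j11 hι1w
  have j12' := j12 hι1w2
  obtain ⟨ι2, L2, hin2, hl2, hι2s⟩ := exists_inert (F := F) hb h2p h2a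
  have hι2z := inert_zeta hin2 hz8
  have hι2w2 := inert_w hin2 hz8 hb.sf hsF h.sq2 h2a h2p (dvd_refl r2) hl2 hι2s
  obtain ⟨c2, hc27, hc2a, -, -, -, j22, -⟩ := iota_2 hb hS hτ h h1p.ne_zero h2p.ne_zero hI
    hι2s hι2z
  have j22' := j22 hι2w2
  obtain ⟨ι, L, hin, hqL, hιs⟩ := exists_inert (F := F) hb hq hqa
  have hιz := inert_zeta hin hz8
  have hιw : ι w = w := inert_sq hin (n := (r1 : ℤ)) (by rw [hD.hw]; simp)
    (by simpa using not_mem hin hq h1p h1q.symm hqL)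
  have hιw2 : ι w2 = w2 := inert_sq hin (n := (r2 : ℤ)) (by rw [h.sq2]; simp)
    (by simpa using not_mem hin hq h2p h2q.symm hqL)
  obtain ⟨b, hb7, hba, jb1, -, jb2, -, hbi⟩ := iota_2 hb hS hτ h h1p.ne_zero h2p.ne_zero hI
    hιs hιz
  have jb1' := jb1 hιw
  have jb2' := jb2 hιw2
  -- genus theory
  obtain ⟨S0, S2, hle, k2, k8, hrep, q1, q2, hsq⟩ := exists_eighth hb h1a h2a (hnorm c1 hc17)
    (hcopb c1 hc1a) (hnorm c2 hc27) (hcopb c2 hc2a)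
    (by rw [hjac r1 h1a h18 c1 hc17, j11'])
    (by rw [hjac r2 h2a h28 c1 hc17, j12'])
    (by rw [hjac r2 h2a h28 c2 hc27, j22'])
  choose! r hr1 hr2 using hrep
  obtain ⟨hk1, hk3, hk4, hk2⟩ := two_S0_3 hb hS h1p h2p hq h18 h28 hq8 ha
  obtain ⟨hu, hu2⟩ := kl_u_sq hb hS h1a h18
  set u : Ideal (𝓞 K) := mI S a * Rf.rI S r1 with hudef
  -- the prime `r1`
  have hng : ∀ C ∈ S0, C ^ 2 ≠ kl (cj τ (mI S a) * c1) := by
    intro C _ hC
    have h1 := hsq C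
    rw [hC, q2 _ (hnorm c1 hc17) (hcopb c1 hc1a), hjac r1 h1a h18 c1 hc17, j11'] at h1
    exact absurd h1.1 (by norm_num)
  obtain ⟨Γ1, hΓ1, W1, -, -, v3, v4, -⟩ := h.rd.ram r1 h1p h1a L1 hin1.prime hl1 _ rfl
  obtain ⟨hW1, hW1'⟩ := v4 ι1 hin1
  obtain ⟨b1, m1, m2, m3, m4⟩ := at_r hb hnc hS hτ hD hI hT4 hT hι1z hc17 hc1i S0 k2 h8 q1 r hr1
    hr2 hng W1 v3 hW1 hW1'
  -- the prime `q`
  have hgS2 : kl (cj τ (mI S a) * b) ∈ S2 := by
    rw [q2 _ (hnorm b hb7) (hcopb b hba), hjac r1 h1a h18 b hb7, hjac r2 h2a h28 b hb7, jb1', jb2']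
    exact ⟨rfl, rfl⟩
  obtain ⟨D, hD0, hDg⟩ := sq_surj4 S0 S2 (by omega) hsq (g1 := kl (Rf.rI S q)) (g2 := kl u)
    (g3 := kl u * kl (Rf.rI S q))
    (fun C hC hC2 => by
      have h1 := hk2 (r C) (hr1 C hC) (by rw [hr2 C hC]; exact hC2)
      rwa [hr2 C hC] at h1) _ hgS2
  set c := r D with hcdef
  have hc1 : Ideal.absNorm c % 4 = 1 := hr1 D hD0
  have hco : OddI c := oddI_of_one hc1
  have hcg : kl c ^ 2 = kl (cj τ (mI S a) * b) := by rw [hcdef, hr2 D hD0, hDg]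
  have hcjo : OddI (cj τ c) := by
    unfold OddI
    rw [hcn]
    exact hco
  have hmbo : OddI (cj τ (mI S a) * b) := oddI_of_one (hnorm b hb7)
  have hkcj : kl (cj τ c) = (kl c)⁻¹ := kl_inv hco hcjo (norm_cj hb hS hτ c).2.1
  obtain ⟨S', hS', hQ⟩ := exists_Q5 hb
  obtain rfl : S' = S := RingOfIntegers.ext (hS'.trans hS.symm)
  have hyo : OddI (cj τ (mI S' a) * b * cj τ c * cj τ c) :=
    oddI_mul'.2 ⟨oddI_mul'.2 ⟨hmbo, hcjo⟩, hcjo⟩
  obtain ⟨δ, hδ⟩ := (kl_eq_one hyo).1 (by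
    rw [kl_mul (oddI_mul'.2 ⟨hmbo, hcjo⟩) hcjo, kl_mul hmbo hcjo, hkcj, ← hcg, pow_two]
    group)
  obtain ⟨x, y, hxy⟩ := hQ.coords δ
  obtain ⟨x1, y1, δ1, hxy1, hδ1, p1, p2, p3⟩ := exists_mu hb hS hτ h1a h18 hxy
    (by rw [← hδ]; exact hyo) hδ.symm
  -- the valuation
  have hqi : Rf.rI S' q = L.comap (algebraMap (𝓞 K) (𝓞 F)) := by
    have hLp := hin.prime
    refine ((Rf.rI_prime hb hS hq hqa).2 _ (Ideal.IsPrime.comap _) ?_).symm
    rw [Ideal.mem_comap, map_natCast]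
    exact hqL
  obtain ⟨Γ, hΓ, W, w1, w2', w3, w4, w5⟩ := h.rd.ram q hq hqa L hin.prime hqL _ hqi
  obtain ⟨hWι, hWι'⟩ := w4 ι hin
  have hqio : OddI (Rf.rI S' q) := by
    unfold OddI
    rw [Rf.rI_norm hb hS hqa]
    exact Nat.odd_iff.2 (by omega)
  have huo : OddI u := oddI_of_one hu
  have huc1 : Ideal.absNorm (u * c) % 4 = 1 := by
    rw [map_mul, Nat.mul_mod, hu, hc1]
  have huco : OddI (u * c) := oddI_of_one huc1
  have hqco : OddI (Rf.rI S' q * c) := oddI_mul'.2 ⟨hqio, hco⟩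
  have hquco : OddI (Rf.rI S' q * (u * c)) := oddI_mul'.2 ⟨hqio, huco⟩
  obtain ⟨v1, -, -, -, -, v2, v3', -, -⟩ := w5 c hco
  obtain ⟨v4', -, -, -, -, -, -, -, -⟩ := w5 _ hqco
  obtain ⟨u1, -, -, -, -, u2, u3, -, -⟩ := w5 (u * c) huco
  obtain ⟨u4, -, -, -, -, -, -, -, -⟩ := w5 _ hquco
  have hty := type_pt hb hS hτ hD hI hTm hT hιz hb7 hbi hc1 hxy hδ.symm W w3 hWι hWι'
  have hty1 := type_pt hb hS hτ hD hI hTm hT hιz hb7 hbi huc1 hxy1 hδ1 W w3 hWι hWι'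
  have hWq : W (q : F) < 1 := by
    have h1 := (w2' (q : 𝓞 F)).2 hqL
    rwa [map_natCast] at h1
  have hsh := shift2 hD hI W w3 hq8 hWq hco hqco v1 v4' v2 v3' hty
  have hsh1 := shift2 hD hI W w3 hq8 hWq huco hquco u1 u4 u2 u3 hty1
  have hEE : Ep F + Em F = Ez F := by
    have h1 := em_ez hI
    have h2 : Ez F + Ez F = 0 := by
      have := hI.gmod.two_T
      rwa [two_zsmul] at this
    have h3 : Ep F + Ep F = 0 := double_zero _ rfl
    have h4 : Em F = Ep F + Ez F := by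
      rw [← h1]
      abel
    rw [h4, ← add_assoc, h3, zero_add]
  have hEE' : Em F + Ep F = Ez F := by rw [add_comm, hEE]
  obtain ⟨P0, P1, hP, g0, g1⟩ : ∃ P0 P1 : (cQ F).Point, P0 + P1 = Ez F ∧
      gpi I (PP hD.gd (Rf.rI S' q * c)) - gpi I (PP hD.gd c) - P0 ∈ E1 W ∧
      gpi I (PP hD.gd (Rf.rI S' q * (u * c))) - gpi I (PP hD.gd (u * c)) - P1 ∈ E1 W := by
    rcases res_pm W hq hq8 hWq (i_sq hz8) with hr | hr
    · rcases Int.even_or_odd y with hy | hy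
      · exact ⟨_, _, hEE, (hsh.1 hr).1 hy, (hsh1.1 hr).2 (p1 hy)⟩
      · exact ⟨_, _, hEE', (hsh.1 hr).2 hy, (hsh1.1 hr).1 (p2 hy)⟩
    · rcases Int.even_or_odd y with hy | hy
      · exact ⟨_, _, hEE', (hsh.2 hr).1 hy, (hsh1.2 hr).2 (p1 hy)⟩
      · exact ⟨_, _, hEE, (hsh.2 hr).2 hy, (hsh1.2 hr).1 (p2 hy)⟩
  obtain ⟨b2, n1, n2, n3, n4⟩ := at_q4 hb hnc hS hτ hD hI hT4 hT hιz hb7 hbi S0 k2 h8 q1 r hr1 hr2
    hqa hq8 hu hu2 hk1 hk3 hk4 hk2 hc1 hcg hδ.symm hδ1 W w3 hWι hWι' hP g0 g1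
  exact no_both2 hb hS hτ hD hI b1 b2 m1 n1 (fun j => by rw [m2, n2]) m3 n3 p3 m4 n4

theorem main_335 {r1 r2 q : ℕ} (h1 : r1.Prime) (h2 : r2.Prime) (hq : q.Prime) (h12 : r1 ≠ r2)
    (h18 : r1 % 8 = 3) (h28 : r2 % 8 = 3) (hq8 : q % 8 = 5) : IsCongruent (r1 * r2 * q) := by
  have hqF : Fact q.Prime := ⟨hq⟩
  have h1q : r1 ≠ q := by
    rintro rfl
    omega
  have h2q : r2 ≠ q := by
    rintro rfl
    omega
  have hsf : Squarefree (r1 * r2 * q) := by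
    rw [Nat.squarefree_mul, Nat.squarefree_mul ((Nat.coprime_primes h1 h2).2 h12)]
    · exact ⟨⟨h1.squarefree, h2.squarefree⟩, hq.squarefree⟩
    · exact Nat.Coprime.mul_left ((Nat.coprime_primes h1 hq).2 h1q)
        ((Nat.coprime_primes h2 hq).2 h2q)
  have ha : (r1 * r2 * q) % 8 = 5 := by
    rw [Nat.mul_mod, Nat.mul_mod r1, h18, h28, hq8]
  obtain ⟨K, _, _, s, hb⟩ := Rf.exists_base hsf ha
  by_cases h8 : 8 ∣ Fintype.card (ClassGroup (𝓞 K))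
  swap
  · exact main8 hb h8
  by_contra hnc
  obtain ⟨S, hS, hQ⟩ := exists_Q5 hb
  obtain ⟨τ, hτ, -, -⟩ := Rf.exists_cj hb hS
  obtain ⟨F, _, _, _, _, _, _, ζ, w, w2, X, Y, V, U, κ, hD⟩ := exists_tdat hb hS hτ
    h1.ne_zero h2.ne_zero
  exact core h1 h2 h12 h18 h28 hq8 rfl hb hnc h8 hS hτ hD

end Pool.Agent.Work.MP_8efaaa_nt.X5
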